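import Pool.Agent.Helper4.AR.Defs

/-!
# The singular factor on average over the intermediate shifts

PROOF: `sing j (∏ h ∈ H, x h) ≤ ∏ h ∈ H, sing j (x h)` for positive `x h` (the prime factors of the
product are the union); by `∏_{i<k} u_i ≤ ∑_{i<k} u_i^k` for `u_i ≥ 1` (some `u_i` is maximal) and
`(sing j h)^k = sing (j k) h` the summand is at most `∑_{i<k} sing (2k) |t - i d|`; for fixed `i`
the map `t ↦ |t - i d|` takes each value in `Ioc 0 (k d)` at most twice, and
`sum_sing_window (2k)` with `A = 0`, `B = k d` bounds the sum by `C (k d + (k d)^(1/2))`.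
-/

set_option autoImplicit false

open Finset

namespace Pool.Agent.Helper4.AR

open Pool.Agent.Helper44 Pool.Agent.Helper96.CPAP

private theorem sing_mul_le (j : ℕ) {a b : ℕ} (ha : a ≠ 0) (hb : b ≠ 0) :
    sing j (a * b) ≤ sing j a * sing j b := by
  classical
  have hf : ∀ p : ℕ, (1 : ℝ) ≤ (1 + 1 / (p : ℝ)) ^ j := by
    intro p
    apply one_le_pow₀
    have : (0 : ℝ) ≤ 1 / p := by positivity
    linarith
  unfold sing
  rw [Nat.primeFactors_mul ha hb, ← Finset.prod_union_inter]
  have h1 : (1 : ℝ) ≤ ∏ p ∈ a.primeFactors ∩ b.primeFactors, (1 + 1 / (p : ℝ)) ^ j := by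
    calc (1 : ℝ) = ∏ p ∈ a.primeFactors ∩ b.primeFactors, (1 : ℝ) := by simp
      _ ≤ _ := Finset.prod_le_prod (fun _ _ => zero_le_one) (fun p _ => hf p)
  have h2 : (0 : ℝ) ≤ ∏ p ∈ a.primeFactors ∪ b.primeFactors, (1 + 1 / (p : ℝ)) ^ j :=
    Finset.prod_nonneg (fun p _ => by positivity)
  exact le_mul_of_one_le_right h2 h1

private theorem sing_prod_le (j : ℕ) (s : Finset ℕ) (x : ℕ → ℕ) (hx : ∀ i ∈ s, x i ≠ 0) :
    sing j (∏ i ∈ s, x i) ≤ ∏ i ∈ s, sing j (x i) := by
  classical
  induction s using Finset.induction_on with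
  | empty => simp [sing]
  | insert a s ha ih =>
    rw [Finset.prod_insert ha, Finset.prod_insert ha]
    have h1 : ∀ i ∈ s, x i ≠ 0 := fun i hi => hx i (Finset.mem_insert_of_mem hi)
    have h2 : ∏ i ∈ s, x i ≠ 0 := Finset.prod_ne_zero_iff.mpr h1
    refine (sing_mul_le j (hx a (Finset.mem_insert_self a s)) h2).trans ?_
    exact mul_le_mul_of_nonneg_left (ih h1) (zero_le_one.trans (one_le_sing j _))

private theorem sing_pow (j m h : ℕ) : (sing j h) ^ m = sing (j * m) h := by
  unfold sing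
  rw [← Finset.prod_pow]
  apply Finset.prod_congr rfl
  intro p _
  rw [pow_mul]

private theorem prod_le_sum_pow (k : ℕ) (s : Finset ℕ) (hs : s.Nonempty) (hc : s.card ≤ k)
    (u : ℕ → ℝ) (hu : ∀ i ∈ s, 1 ≤ u i) : ∏ i ∈ s, u i ≤ ∑ i ∈ s, u i ^ k := by
  classical
  obtain ⟨m, hm, hmax⟩ := Finset.exists_max_image s u hs
  calc ∏ i ∈ s, u i ≤ ∏ i ∈ s, u m := by
        apply Finset.prod_le_prod
        · intro i hi; linarith [hu i hi]
        · intro i hi; exact hmax i hi
    _ = u m ^ s.card := by rw [Finset.prod_const]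
    _ ≤ u m ^ k := pow_le_pow_right₀ (hu m hm) hc
    _ ≤ ∑ i ∈ s, u i ^ k := by
        apply Finset.single_le_sum (f := fun i => u i ^ k) _ hm
        intro i hi
        have := hu i hi
        positivity

private theorem sum_shift_le (j k d c : ℕ) (hd : 0 < d) (hc : c ≤ k * d)
    (hcd : d ∣ c) :
    ∑ t ∈ (range ((k - 1) * d)).filter (fun t => ¬ d ∣ t), sing j ((t - c) + (c - t)) ≤
      2 * ∑ h ∈ Finset.Ioc 0 (k * d), sing j h := by
  classical
  have hkd : (k - 1) * d ≤ k * d := Nat.mul_le_mul_right d (Nat.sub_le k 1)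
  set T := (range ((k - 1) * d)).filter (fun t => ¬ d ∣ t) with hT
  have hs0 : ∀ h, 0 ≤ sing j h := fun h => zero_le_one.trans (one_le_sing j h)
  have h1 : ∑ t ∈ T.filter (fun t => t < c), sing j ((t - c) + (c - t)) ≤
      ∑ h ∈ Finset.Ioc 0 (k * d), sing j h := by
    have e : ∑ t ∈ T.filter (fun t => t < c), sing j ((t - c) + (c - t)) =
        ∑ h ∈ (T.filter (fun t => t < c)).image (fun t => c - t), sing j h := by
      rw [Finset.sum_image]
      · apply Finset.sum_congr rfl
        intro t ht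
        rw [Finset.mem_filter] at ht
        congr 1
        omega
      · intro a ha b hb hab
        rw [Finset.mem_coe, Finset.mem_filter] at ha hb
        simp only at hab
        omega
    rw [e]
    apply Finset.sum_le_sum_of_subset_of_nonneg
    · intro h hh
      rw [Finset.mem_image] at hh
      obtain ⟨t, ht, rfl⟩ := hh
      rw [Finset.mem_filter] at ht
      rw [Finset.mem_Ioc]
      omega
    · intro h _ _; exact hs0 h
  have h2 : ∑ t ∈ T.filter (fun t => ¬ t < c), sing j ((t - c) + (c - t)) ≤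
      ∑ h ∈ Finset.Ioc 0 (k * d), sing j h := by
    have e : ∑ t ∈ T.filter (fun t => ¬ t < c), sing j ((t - c) + (c - t)) =
        ∑ h ∈ (T.filter (fun t => ¬ t < c)).image (fun t => t - c), sing j h := by
      rw [Finset.sum_image]
      · apply Finset.sum_congr rfl
        intro t ht
        rw [Finset.mem_filter] at ht
        congr 1
        omega
      · intro a ha b hb hab
        rw [Finset.mem_coe, Finset.mem_filter] at ha hb
        simp only at hab
        omega
    rw [e]
    apply Finset.sum_le_sum_of_subset_of_nonneg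
    · intro h hh
      rw [Finset.mem_image] at hh
      obtain ⟨t, ht, rfl⟩ := hh
      rw [Finset.mem_filter, hT, Finset.mem_filter, Finset.mem_range] at ht
      rw [Finset.mem_Ioc]
      have h3 : t ≠ c := by
        intro h
        rw [h] at ht
        exact ht.1.2 hcd
      omega
    · intro h _ _; exact hs0 h
  rw [← Finset.sum_filter_add_sum_filter_not T (fun t => t < c)]
  linarith

theorem avg_t (k : ℕ) : ∃ C : ℝ, 0 < C ∧ ∀ d : ℕ, 0 < d →
    ∑ t ∈ (range ((k - 1) * d)).filter (fun t => ¬ d ∣ t),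
      sing 2 (∏ h ∈ sh k d, ((t - h) + (h - t))) ≤ C * d := by
  classical
  obtain ⟨C0, hC0, hS⟩ := sum_sing_window (2 * k)
  refine ⟨4 * (k : ℝ) ^ 2 * C0 + 1, by positivity, ?_⟩
  intro d hd
  have hd0 : (1 : ℝ) ≤ d := by exact_mod_cast hd
  rcases Nat.eq_zero_or_pos k with hk | hk
  · subst hk
    simp only [Nat.zero_sub, zero_mul, Finset.range_zero, Finset.filter_empty, Finset.sum_empty]
    positivity
  have hk0 : (1 : ℝ) ≤ k := by exact_mod_cast hk
  have hne : (sh k d).Nonempty := ⟨0 * d, mem_sh.mpr ⟨0, hk, rfl⟩⟩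
  set W : ℝ := ∑ h ∈ Finset.Ioc 0 (k * d), sing (2 * k) h with hW
  have hW0 : 0 ≤ W := Finset.sum_nonneg fun h _ => zero_le_one.trans (one_le_sing _ h)
  have hWle : W ≤ 2 * C0 * (k * d) := by
    have h1 := hS 0 (k * d) (Nat.zero_le _)
    have h2 : (((k * d : ℕ) : ℝ)) ^ (1 / 2 : ℝ) ≤ ((k * d : ℕ) : ℝ) := by
      have h3 : (1 : ℝ) ≤ ((k * d : ℕ) : ℝ) := by
        push_cast
        nlinarith
      calc (((k * d : ℕ) : ℝ)) ^ (1 / 2 : ℝ) ≤ (((k * d : ℕ) : ℝ)) ^ (1 : ℝ) :=
            Real.rpow_le_rpow_of_exponent_le h3 (by norm_num)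
        _ = _ := Real.rpow_one _
    have h4 : W ≤ C0 * (((k * d : ℕ) : ℝ) + ((k * d : ℕ) : ℝ)) := by
      refine h1.trans ?_
      apply mul_le_mul_of_nonneg_left _ hC0.le
      simp only [Nat.cast_zero, sub_zero]
      linarith
    refine h4.trans (le_of_eq ?_)
    push_cast
    ring
  calc ∑ t ∈ (range ((k - 1) * d)).filter (fun t => ¬ d ∣ t),
        sing 2 (∏ h ∈ sh k d, ((t - h) + (h - t)))
      ≤ ∑ t ∈ (range ((k - 1) * d)).filter (fun t => ¬ d ∣ t),
          ∑ h ∈ sh k d, sing (2 * k) ((t - h) + (h - t)) := by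
        apply Finset.sum_le_sum
        intro t ht
        rw [Finset.mem_filter] at ht
        have hx : ∀ h ∈ sh k d, (t - h) + (h - t) ≠ 0 := by
          intro h hh
          obtain ⟨i, _, rfl⟩ := mem_sh.mp hh
          have h3 : t ≠ i * d := by
            intro h
            exact ht.2 (h ▸ Dvd.intro_left i rfl)
          omega
        refine (sing_prod_le 2 (sh k d) (fun h => (t - h) + (h - t)) hx).trans ?_
        refine (prod_le_sum_pow k (sh k d) hne (card_sh_le k d)
          (fun h => sing 2 ((t - h) + (h - t))) (fun h _ => one_le_sing 2 _)).trans ?_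
        apply Finset.sum_le_sum
        intro h _
        rw [sing_pow]
    _ = ∑ h ∈ sh k d, ∑ t ∈ (range ((k - 1) * d)).filter (fun t => ¬ d ∣ t),
          sing (2 * k) ((t - h) + (h - t)) := Finset.sum_comm
    _ ≤ ∑ h ∈ sh k d, 2 * W := by
        apply Finset.sum_le_sum
        intro h hh
        obtain ⟨i, hi, rfl⟩ := mem_sh.mp hh
        exact sum_shift_le (2 * k) k d (i * d) hd (Nat.mul_le_mul_right d hi.le)
          (Dvd.intro_left i rfl)
    _ = (sh k d).card * (2 * W) := by rw [Finset.sum_const, nsmul_eq_mul]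
    _ ≤ k * (2 * W) := by
        apply mul_le_mul_of_nonneg_right _ (by positivity)
        exact_mod_cast card_sh_le k d
    _ ≤ k * (2 * (2 * C0 * (k * d))) := by
        apply mul_le_mul_of_nonneg_left _ (by positivity)
        linarith
    _ ≤ (4 * (k : ℝ) ^ 2 * C0 + 1) * d := by nlinarith

end Pool.Agent.Helper4.AR
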