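import Pool.Agent.Helper4.AR.Defs

/-!
# Comparison of the sieve products
-/

set_option autoImplicit false

open Finset

namespace Pool.Agent.Helper4.AR

open Pool.Agent.Helper44 Pool.Agent.Helper96.CPAP

private theorem fac {k : ℕ} {H : Finset ℕ} (hH : H.card ≤ k + 1) {b : ℕ} {w : ℝ} (hw : 0 ≤ w)
    {q : ℕ} (hq : q ∈ pU (PB k b) w) :
    0 ≤ (nuH H q : ℝ) / q ∧ (nuH H q : ℝ) / q ≤ 1 / 2 ∧
      (nuH H q : ℝ) / q ≤ ((k : ℝ) + 1) * (1 / (q : ℝ)) := by
  rw [mem_pU (fun q h => PB_prime h) hw] at hq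
  obtain ⟨⟨hqp, hq2, _⟩, _⟩ := hq
  have hq0 : (0 : ℝ) < q := by exact_mod_cast hqp.pos
  have h1 : nuH H q ≤ k + 1 := (nuH_le hqp.pos).trans hH
  have h1' : (nuH H q : ℝ) ≤ (k : ℝ) + 1 := by exact_mod_cast h1
  have h2 : (2 : ℝ) * ((k : ℝ) + 1) ≤ q := by exact_mod_cast hq2
  refine ⟨by positivity, ?_, ?_⟩
  · rw [div_le_iff₀ hq0]
    linarith
  · rw [mul_one_div]
    exact div_le_div_of_nonneg_right h1' hq0.le

/-- Each factor is at least `1/2`: `nuH H q ≤ k + 1 ≤ q / 2`. -/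
theorem V_pos {k : ℕ} {H : Finset ℕ} (hH : H.card ≤ k + 1) (b : ℕ) {w : ℝ} (hw : 0 ≤ w) :
    0 < V k H b w := by
  unfold V
  apply Finset.prod_pos
  intro q hq
  have h := fac hH hw hq
  linarith [h.2.1]

private theorem pU_sub {k b : ℕ} {w : ℝ} (hw : 0 ≤ w) : pU (PB k b) w ⊆ pU (PB k 1) w := by
  intro q hq
  rw [mem_pU (fun q h => PB_prime h) hw] at hq ⊢
  refine ⟨⟨hq.1.1, hq.1.2.1, ?_⟩, hq.2⟩
  intro h
  exact hq.1.1.one_lt.ne' (Nat.dvd_one.mp h)

/-- Dropping the primes dividing `b`: each missing factor is at least `1/2`. -/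
theorem V_b_le {k : ℕ} {H : Finset ℕ} (hH : H.card ≤ k + 1) {b : ℕ} (hb : 0 < b) {w : ℝ}
    (hw : 0 ≤ w) : V k H b w ≤ 2 ^ b.primeFactors.card * V k H 1 w := by
  classical
  have h0 : 0 < V k H b w := V_pos hH b hw
  have h1 : V k H 1 w = (∏ q ∈ pU (PB k 1) w \ pU (PB k b) w, (1 - (nuH H q : ℝ) / q)) *
      V k H b w := by
    unfold V
    exact (Finset.prod_sdiff (pU_sub hw)).symm
  have h2 : (1 / 2 : ℝ) ^ b.primeFactors.card ≤
      ∏ q ∈ pU (PB k 1) w \ pU (PB k b) w, (1 - (nuH H q : ℝ) / q) := by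
    have hsub : pU (PB k 1) w \ pU (PB k b) w ⊆ b.primeFactors := by
      intro q hq
      rw [Finset.mem_sdiff, mem_pU (fun q h => PB_prime h) hw,
        mem_pU (fun q h => PB_prime h) hw] at hq
      rw [Nat.mem_primeFactors]
      refine ⟨hq.1.1.1, ?_, hb.ne'⟩
      by_contra hd
      exact hq.2 ⟨⟨hq.1.1.1, hq.1.1.2.1, hd⟩, hq.1.2⟩
    calc (1 / 2 : ℝ) ^ b.primeFactors.card
        ≤ (1 / 2 : ℝ) ^ (pU (PB k 1) w \ pU (PB k b) w).card :=
          pow_le_pow_of_le_one (by norm_num) (by norm_num) (Finset.card_le_card hsub)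
      _ = ∏ _q ∈ pU (PB k 1) w \ pU (PB k b) w, (1 / 2 : ℝ) := by rw [Finset.prod_const]
      _ ≤ _ := by
          apply Finset.prod_le_prod
          · intro q _
            norm_num
          · intro q hq
            have h := fac hH hw (Finset.mem_sdiff.mp hq).1
            linarith [h.2.1]
  rw [h1]
  have h3 : (2 : ℝ) ^ b.primeFactors.card * (1 / 2 : ℝ) ^ b.primeFactors.card = 1 := by
    rw [← mul_pow]
    norm_num
  calc V k H b w = 2 ^ b.primeFactors.card * ((1 / 2 : ℝ) ^ b.primeFactors.card * V k H b w) := by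
        rw [← mul_assoc, h3, one_mul]
    _ ≤ _ := by
        apply mul_le_mul_of_nonneg_left _ (by positivity)
        exact mul_le_mul_of_nonneg_right h2 h0.le

private theorem nu_insert {H : Finset ℕ} {t q : ℕ} (hq : 0 < q)
    (hd : ¬ q ∣ ∏ h ∈ H, ((t - h) + (h - t))) : nuH (insert t H) q = nuH H q + 1 := by
  classical
  rw [nuH_eq_image hq, nuH_eq_image hq, Finset.image_insert, Finset.card_insert_of_notMem]
  intro hm
  rw [Finset.mem_image] at hm
  obtain ⟨h, hh, he⟩ := hm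
  apply hd
  refine Dvd.dvd.trans ?_ (Finset.dvd_prod_of_mem _ hh)
  rcases le_total h t with h1 | h1
  · rw [Nat.sub_eq_zero_of_le h1, add_zero]
    exact (Nat.modEq_iff_dvd' h1).mp he
  · rw [Nat.sub_eq_zero_of_le h1, zero_add]
    exact (Nat.modEq_iff_dvd' h1).mp he.symm

private theorem nu_mono {H : Finset ℕ} {t q : ℕ} (hq : 0 < q) :
    nuH H q ≤ nuH (insert t H) q := by
  classical
  rw [nuH_eq_image hq, nuH_eq_image hq]
  exact Finset.card_le_card (Finset.image_subset_image (Finset.subset_insert _ _))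

private theorem prod_all (k : ℕ) : ∃ C : ℝ, 0 < C ∧ ∀ w : ℝ, 2 ≤ w →
    ∏ q ∈ pU (PB k 1) w, (1 - 1 / (q : ℝ)) ≤ C / Real.log w := by
  classical
  obtain ⟨_, C, _, hC, hM⟩ := mertens_prod
  refine ⟨2 ^ (2 * (k + 1)) * C, by positivity, ?_⟩
  intro w hw
  have hw0 : (0 : ℝ) ≤ w := by linarith
  have hlw : 0 < Real.log w := Real.log_pos (by linarith)
  have hsub : pU (PB k 1) w ⊆ primesUpTo w := by
    intro q hq
    rw [mem_pU (fun q h => PB_prime h) hw0] at hq
    rw [mem_primesUpTo hw0]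
    exact ⟨hq.1.1, hq.2⟩
  have h1 := (hM w hw).2
  rw [← Finset.prod_sdiff hsub] at h1
  have hp : ∀ q ∈ primesUpTo w, (1 / 2 : ℝ) ≤ 1 - 1 / (q : ℝ) := by
    intro q hq
    rw [mem_primesUpTo hw0] at hq
    have h2 : (2 : ℝ) ≤ q := by exact_mod_cast hq.1.two_le
    have h3 : (1 : ℝ) / q ≤ 1 / 2 := one_div_le_one_div_of_le (by norm_num) h2
    linarith
  have hpos : 0 < ∏ q ∈ pU (PB k 1) w, (1 - 1 / (q : ℝ)) := by
    apply Finset.prod_pos
    intro q hq
    linarith [hp q (hsub hq)]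
  have h2 : (1 / 2 : ℝ) ^ (2 * (k + 1)) ≤
      ∏ q ∈ primesUpTo w \ pU (PB k 1) w, (1 - 1 / (q : ℝ)) := by
    have hs : primesUpTo w \ pU (PB k 1) w ⊆ range (2 * (k + 1)) := by
      intro q hq
      rw [Finset.mem_sdiff, mem_pU (fun q h => PB_prime h) hw0, mem_primesUpTo hw0] at hq
      rw [Finset.mem_range]
      by_contra h
      apply hq.2
      refine ⟨⟨hq.1.1, by omega, ?_⟩, hq.1.2⟩
      intro h'
      exact hq.1.1.one_lt.ne' (Nat.dvd_one.mp h')
    calc (1 / 2 : ℝ) ^ (2 * (k + 1))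
        ≤ (1 / 2 : ℝ) ^ (primesUpTo w \ pU (PB k 1) w).card := by
          apply pow_le_pow_of_le_one (by norm_num) (by norm_num)
          have := Finset.card_le_card hs
          rwa [Finset.card_range] at this
      _ = ∏ _q ∈ primesUpTo w \ pU (PB k 1) w, (1 / 2 : ℝ) := by rw [Finset.prod_const]
      _ ≤ _ := by
          apply Finset.prod_le_prod
          · intro q _
            norm_num
          · intro q hq
            exact hp q (Finset.mem_sdiff.mp hq).1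
  have h3 : (2 : ℝ) ^ (2 * (k + 1)) * (1 / 2 : ℝ) ^ (2 * (k + 1)) = 1 := by
    rw [← mul_pow]
    norm_num
  calc ∏ q ∈ pU (PB k 1) w, (1 - 1 / (q : ℝ))
      = 2 ^ (2 * (k + 1)) * ((1 / 2 : ℝ) ^ (2 * (k + 1)) *
          ∏ q ∈ pU (PB k 1) w, (1 - 1 / (q : ℝ))) := by rw [← mul_assoc, h3, one_mul]
    _ ≤ 2 ^ (2 * (k + 1)) * ((∏ q ∈ primesUpTo w \ pU (PB k 1) w, (1 - 1 / (q : ℝ))) *
          ∏ q ∈ pU (PB k 1) w, (1 - 1 / (q : ℝ))) := by
        apply mul_le_mul_of_nonneg_left _ (by positivity)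
        exact mul_le_mul_of_nonneg_right h2 hpos.le
    _ ≤ 2 ^ (2 * (k + 1)) * (C / Real.log w) :=
        mul_le_mul_of_nonneg_left h1 (by positivity)
    _ = _ := by ring

/-- For `q ∤ ∏ |t - h|` one has `nuH (insert t H) q = nuH H q + 1` (use `nuH_eq_image`), so the
factor is `≤ (1 - nuH H q / q) (1 - 1/q)`; for the other `q` use `nuH (insert t H) q ≥ nuH H q`.
Then `∏_{q ≤ w} (1 - 1/q) ≤ C / log w` (`mertens_prod`), remove the primes `< 2 (k + 1)` (constant
factor depending on `k`) and those dividing `∏ |t - h|`: `(1 - 1/q)⁻¹ ≤ (1 + 1/q)^2`. -/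
theorem V_insert (k : ℕ) : ∃ C : ℝ, 0 < C ∧ ∀ H : Finset ℕ, H.card ≤ k → ∀ t : ℕ, t ∉ H →
    ∀ w : ℝ, 2 ≤ w → V k (insert t H) 1 w ≤
      C / Real.log w * sing 2 (∏ h ∈ H, ((t - h) + (h - t))) * V k H 1 w := by
  classical
  obtain ⟨C, hC, hP⟩ := prod_all k
  refine ⟨C, hC, ?_⟩
  intro H hH t ht w hw
  have hw0 : (0 : ℝ) ≤ w := by linarith
  have hlw : 0 < Real.log w := Real.log_pos (by linarith)
  have hH1 : H.card ≤ k + 1 := by omega
  have hHt : (insert t H).card ≤ k + 1 := (Finset.card_insert_le _ _).trans (by omega)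
  obtain ⟨D, hD⟩ : ∃ D : ℕ, D = ∏ h ∈ H, ((t - h) + (h - t)) := ⟨_, rfl⟩
  have hD0 : D ≠ 0 := by
    rw [hD, Finset.prod_ne_zero_iff]
    intro h hh
    have : t ≠ h := by
      rintro rfl
      exact ht hh
    omega
  rw [← hD]
  have hV0 := V_pos hH1 1 hw0
  have hterm : V k (insert t H) 1 w ≤ ∏ q ∈ pU (PB k 1) w,
      ((1 - (nuH H q : ℝ) / q) * ((1 - 1 / (q : ℝ)) *
        (if q ∣ D then (1 + 1 / (q : ℝ)) ^ 2 else 1))) := by
    unfold V
    apply Finset.prod_le_prod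
    · intro q hq
      have h := fac hHt hw0 hq
      linarith [h.2.1]
    · intro q hq
      have hf := fac hH1 hw0 hq
      have hq' := hq
      rw [mem_pU (fun q h => PB_prime h) hw0] at hq'
      have hq0 : (0 : ℝ) < q := by exact_mod_cast hq'.1.1.pos
      have hq2 : (2 : ℝ) ≤ q := by exact_mod_cast hq'.1.1.two_le
      have hx : (1 : ℝ) / q ≤ 1 / 2 := one_div_le_one_div_of_le (by norm_num) hq2
      have hx0 : (0 : ℝ) < 1 / q := by positivity
      split_ifs with hd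
      · have h1 : (nuH H q : ℝ) ≤ nuH (insert t H) q := by exact_mod_cast nu_mono hq'.1.1.pos
        have h2 : (nuH H q : ℝ) / q ≤ (nuH (insert t H) q : ℝ) / q :=
          div_le_div_of_nonneg_right h1 hq0.le
        obtain ⟨x, hxd⟩ : ∃ x : ℝ, x = 1 / q := ⟨_, rfl⟩
        rw [← hxd] at hx hx0 ⊢
        have h3 : (1 : ℝ) ≤ (1 - x) * (1 + x) ^ 2 := by
          have h4 : (1 - x) * (1 + x) ^ 2 = 1 + x * (1 - x - x ^ 2) := by ring
          rw [h4]
          have h5 : 0 ≤ 1 - x - x ^ 2 := by nlinarith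
          have h6 := mul_nonneg hx0.le h5
          linarith
        have h7 : 0 ≤ 1 - (nuH H q : ℝ) / q := by linarith [hf.2.1]
        calc 1 - (nuH (insert t H) q : ℝ) / q ≤ (1 - (nuH H q : ℝ) / q) * 1 := by linarith
          _ ≤ _ := mul_le_mul_of_nonneg_left h3 h7
      · rw [hD] at hd
        rw [nu_insert hq'.1.1.pos hd]
        push_cast
        have h8 : ((nuH H q : ℝ) + 1) / q = (nuH H q : ℝ) / q + 1 / q := by rw [add_div]
        rw [h8, mul_one]
        have h9 := mul_nonneg hf.1 hx0.le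
        linarith [h9, (by ring : (1 - (nuH H q : ℝ) / q) * (1 - 1 / (q : ℝ)) =
          1 - ((nuH H q : ℝ) / q + 1 / q) + (nuH H q : ℝ) / q * (1 / q))]
  have hsing : ∏ q ∈ pU (PB k 1) w, (if q ∣ D then (1 + 1 / (q : ℝ)) ^ 2 else 1) ≤ sing 2 D := by
    rw [← Finset.prod_filter]
    unfold sing
    apply prod_le_of_subset
    · intro q hq
      rw [Finset.mem_filter, mem_pU (fun q h => PB_prime h) hw0] at hq
      rw [Nat.mem_primeFactors]
      exact ⟨hq.1.1.1, hq.2, hD0⟩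
    · intro q _
      positivity
    · intro q _ _
      apply one_le_pow₀
      have : (0 : ℝ) ≤ 1 / q := by positivity
      linarith
  refine hterm.trans ?_
  rw [Finset.prod_mul_distrib, Finset.prod_mul_distrib]
  have hA : 0 ≤ ∏ q ∈ pU (PB k 1) w, (if q ∣ D then (1 + 1 / (q : ℝ)) ^ 2 else 1) := by
    apply Finset.prod_nonneg
    intro q _
    split_ifs
    · positivity
    · norm_num
  have hB : (∏ q ∈ pU (PB k 1) w, (1 - 1 / (q : ℝ))) *
      ∏ q ∈ pU (PB k 1) w, (if q ∣ D then (1 + 1 / (q : ℝ)) ^ 2 else 1) ≤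
      C / Real.log w * sing 2 D :=
    mul_le_mul (hP w hw) hsing hA (by positivity)
  calc _ ≤ V k H 1 w * (C / Real.log w * sing 2 D) := mul_le_mul_of_nonneg_left hB hV0.le
    _ = _ := by ring

/-- From `prod_lower_bound k`. -/
theorem V_low (k : ℕ) : ∃ c : ℝ, 0 < c ∧ ∀ H : Finset ℕ, H.card ≤ k → ∀ w : ℝ, 2 ≤ w →
    c / (Real.log w) ^ k ≤ V k H 1 w := by
  obtain ⟨c, hc, h⟩ := prod_lower_bound k
  refine ⟨c, hc, ?_⟩
  intro H hH w hw
  unfold V
  refine h (PB k 1) ?_ (fun q => (nuH H q : ℝ)) ?_ w hw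
  · intro q hq
    exact ⟨hq.1, by have := hq.2.1; omega⟩
  · intro q hq
    refine ⟨by positivity, ?_⟩
    have h1 : nuH H q ≤ k := (nuH_le hq.1.pos).trans hH
    show (nuH H q : ℝ) ≤ k
    exact_mod_cast h1

/-- `V(w) ≤ C V(w^r)`: the missing factors have product at least
`exp (- ∑_{w < q ≤ w^r} 2 (k+1)/q) ≥ exp (- 2 (k+1) (log r + 2 C0))` by `sum_primesUpTo_bounds`. -/
theorem V_ratio (k : ℕ) (r : ℝ) (hr : 1 ≤ r) : ∃ C : ℝ, 0 < C ∧ ∀ H : Finset ℕ, H.card ≤ k + 1 →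
    ∀ w : ℝ, 2 ≤ w → V k H 1 w ≤ C * V k H 1 (w ^ r) := by
  classical
  obtain ⟨C0, hC0, hM⟩ := sum_primesUpTo_bounds
  refine ⟨Real.exp (2 * ((k : ℝ) + 1) * (Real.log r + 2 * C0)), Real.exp_pos _, ?_⟩
  intro H hH w hw
  have hw0 : (0 : ℝ) ≤ w := by linarith
  have hlw : 0 < Real.log w := Real.log_pos (by linarith)
  have hwr : w ≤ w ^ r := by
    calc w = w ^ (1 : ℝ) := (Real.rpow_one w).symm
      _ ≤ w ^ r := Real.rpow_le_rpow_of_exponent_le (by linarith) hr
  have hwr0 : (0 : ℝ) ≤ w ^ r := hw0.trans hwr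
  have hsub : pU (PB k 1) w ⊆ pU (PB k 1) (w ^ r) := by
    intro q hq
    rw [mem_pU (fun q h => PB_prime h) hw0] at hq
    rw [mem_pU (fun q h => PB_prime h) hwr0]
    exact ⟨hq.1, hq.2.trans hwr⟩
  have hV0 := V_pos hH 1 hw0
  have h1 : V k H 1 (w ^ r) = (∏ q ∈ pU (PB k 1) (w ^ r) \ pU (PB k 1) w,
      (1 - (nuH H q : ℝ) / q)) * V k H 1 w := by
    unfold V
    exact (Finset.prod_sdiff hsub).symm
  have h2 : Real.exp (-(2 * ((k : ℝ) + 1) * (Real.log r + 2 * C0))) ≤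
      ∏ q ∈ pU (PB k 1) (w ^ r) \ pU (PB k 1) w, (1 - (nuH H q : ℝ) / q) := by
    calc Real.exp (-(2 * ((k : ℝ) + 1) * (Real.log r + 2 * C0)))
        ≤ Real.exp (-∑ q ∈ pU (PB k 1) (w ^ r) \ pU (PB k 1) w,
            2 * (((k : ℝ) + 1) * (1 / (q : ℝ)))) := by
          apply Real.exp_le_exp.mpr
          have h3 : ∑ q ∈ pU (PB k 1) (w ^ r) \ pU (PB k 1) w, (1 / (q : ℝ)) ≤
              Real.log r + 2 * C0 := by
            have hs1 : pU (PB k 1) (w ^ r) \ pU (PB k 1) w ⊆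
                primesUpTo (w ^ r) \ primesUpTo w := by
              intro q hq
              rw [Finset.mem_sdiff, mem_pU (fun q h => PB_prime h) hw0,
                mem_pU (fun q h => PB_prime h) hwr0] at hq
              rw [Finset.mem_sdiff, mem_primesUpTo hw0, mem_primesUpTo hwr0]
              exact ⟨⟨hq.1.1.1, hq.1.2⟩, fun h => hq.2 ⟨hq.1.1, h.2⟩⟩
            have hs2 : primesUpTo w ⊆ primesUpTo (w ^ r) := by
              intro q hq
              rw [mem_primesUpTo hw0] at hq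
              rw [mem_primesUpTo hwr0]
              exact ⟨hq.1, hq.2.trans hwr⟩
            have h4 : ∑ q ∈ pU (PB k 1) (w ^ r) \ pU (PB k 1) w, (1 / (q : ℝ)) ≤
                ∑ q ∈ primesUpTo (w ^ r) \ primesUpTo w, (1 / (q : ℝ)) :=
              Finset.sum_le_sum_of_subset_of_nonneg hs1 (fun q _ _ => by positivity)
            have h5 : ∑ q ∈ primesUpTo (w ^ r) \ primesUpTo w, (1 / (q : ℝ)) +
                ∑ q ∈ primesUpTo w, (1 / (q : ℝ)) = ∑ q ∈ primesUpTo (w ^ r), (1 / (q : ℝ)) :=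
              Finset.sum_sdiff hs2
            have h6 := (abs_le.mp (hM w hw)).1
            have h7 := (abs_le.mp (hM (w ^ r) (hw.trans hwr))).2
            have h8 : Real.log (Real.log (w ^ r)) = Real.log r + Real.log (Real.log w) := by
              rw [Real.log_rpow (by linarith), Real.log_mul (by linarith) hlw.ne']
            linarith
          have h9 : ∑ q ∈ pU (PB k 1) (w ^ r) \ pU (PB k 1) w,
              2 * (((k : ℝ) + 1) * (1 / (q : ℝ))) =
              2 * ((k : ℝ) + 1) * ∑ q ∈ pU (PB k 1) (w ^ r) \ pU (PB k 1) w, (1 / (q : ℝ)) := by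
            rw [Finset.mul_sum]
            exact Finset.sum_congr rfl fun q _ => by ring
          rw [h9]
          have h10 : (0 : ℝ) ≤ 2 * ((k : ℝ) + 1) := by positivity
          have h11 := mul_le_mul_of_nonneg_left h3 h10
          linarith
      _ = ∏ q ∈ pU (PB k 1) (w ^ r) \ pU (PB k 1) w,
            Real.exp (-(2 * (((k : ℝ) + 1) * (1 / (q : ℝ))))) := by
          rw [← Finset.sum_neg_distrib, Real.exp_sum]
      _ ≤ _ := by
          apply Finset.prod_le_prod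
          · intro q _
            exact (Real.exp_pos _).le
          · intro q hq
            have hf := fac hH hwr0 (Finset.mem_sdiff.mp hq).1
            refine le_trans ?_ (one_sub_ge_exp' hf.1 hf.2.1)
            apply Real.exp_le_exp.mpr
            nlinarith [hf.1, hf.2.1, hf.2.2]
  rw [h1]
  have h12 : Real.exp (2 * ((k : ℝ) + 1) * (Real.log r + 2 * C0)) *
      Real.exp (-(2 * ((k : ℝ) + 1) * (Real.log r + 2 * C0))) = 1 := by
    rw [← Real.exp_add, add_neg_cancel, Real.exp_zero]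
  calc V k H 1 w = Real.exp (2 * ((k : ℝ) + 1) * (Real.log r + 2 * C0)) *
        (Real.exp (-(2 * ((k : ℝ) + 1) * (Real.log r + 2 * C0))) * V k H 1 w) := by
        rw [← mul_assoc, h12, one_mul]
    _ ≤ _ := by
        apply mul_le_mul_of_nonneg_left _ (Real.exp_pos _).le
        exact mul_le_mul_of_nonneg_right h2 hV0.le

end Pool.Agent.Helper4.AR
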