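import Pool.Agent.Helper44.MertensProd

/-!
# Smooth integers with few prime factors
-/

set_option autoImplicit false

open Finset

namespace Pool.Agent.Helper4.AR

open Pool.Agent.Helper44
open ArithmeticFunction (cardFactors)

/-- Splitting off the smallest prime factor. -/
private theorem split_aux {w : ℝ} {r b : ℕ} (hb : 0 < b) (hb1 : b ≠ 1)
    (h1 : cardFactors b ≤ r + 1) (h2 : ∀ p : ℕ, p.Prime → p ∣ b → (p : ℝ) ≤ w) :
    b.minFac.Prime ∧ (b.minFac : ℝ) ≤ w ∧ b = b.minFac * (b / b.minFac) ∧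
      0 < b / b.minFac ∧ cardFactors (b / b.minFac) ≤ r ∧
      ∀ p : ℕ, p.Prime → p ∣ b / b.minFac → (p : ℝ) ≤ w := by
  have hp : b.minFac.Prime := Nat.minFac_prime hb1
  have hd : b.minFac ∣ b := Nat.minFac_dvd b
  have he : b = b.minFac * (b / b.minFac) := (Nat.mul_div_cancel' hd).symm
  have hpos : 0 < b / b.minFac := Nat.div_pos (Nat.minFac_le hb) hp.pos
  have hc : cardFactors b = 1 + cardFactors (b / b.minFac) := by
    conv_lhs => rw [he]
    rw [ArithmeticFunction.cardFactors_mul hp.ne_zero hpos.ne',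
      ArithmeticFunction.cardFactors_apply_prime hp]
  refine ⟨hp, h2 _ hp hd, he, hpos, by omega, fun p hpp hpd => h2 p hpp ?_⟩
  exact hpd.trans (Nat.div_dvd_of_dvd hd)

private theorem eq_one_aux {b : ℕ} (hb : 0 < b) (h : cardFactors b ≤ 0) : b = 1 := by
  by_contra hb1
  have hp : b.minFac.Prime := Nat.minFac_prime hb1
  have hd : b.minFac ∣ b := Nat.minFac_dvd b
  have he : b = b.minFac * (b / b.minFac) := (Nat.mul_div_cancel' hd).symm
  have hpos : 0 < b / b.minFac := Nat.div_pos (Nat.minFac_le hb) hp.pos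
  have hc : cardFactors b = 1 + cardFactors (b / b.minFac) := by
    conv_lhs => rw [he]
    rw [ArithmeticFunction.cardFactors_mul hp.ne_zero hpos.ne',
      ArithmeticFunction.cardFactors_apply_prime hp]
  omega

/-- Induction on `r`: `b = 1` or `b = p b'` with `p` prime, `p ≤ w` and `b'` in the set for `r - 1`;
so (the sum over) the set for `r + 1` is at most `1 + (∑ 1/p) σ_r ≤ (1 + ∑ 1/p) σ_r`. -/
theorem smooth_sum (w : ℝ) (hw : 0 ≤ w) (r : ℕ) (S : Finset ℕ)
    (hS : ∀ b ∈ S, 0 < b ∧ cardFactors b ≤ r ∧ ∀ p : ℕ, p.Prime → p ∣ b → (p : ℝ) ≤ w) :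
    ∑ b ∈ S, 1 / (b : ℝ) ≤ (1 + ∑ p ∈ primesUpTo w, 1 / (p : ℝ)) ^ r := by
  have hs0 : 0 ≤ ∑ p ∈ primesUpTo w, 1 / (p : ℝ) := Finset.sum_nonneg fun p _ => by positivity
  induction r generalizing S with
  | zero =>
    have hsub : S ⊆ {1} := by
      intro b hb
      rw [Finset.mem_singleton]
      exact eq_one_aux (hS b hb).1 (hS b hb).2.1
    calc ∑ b ∈ S, 1 / (b : ℝ) ≤ ∑ b ∈ ({1} : Finset ℕ), 1 / (b : ℝ) :=
          Finset.sum_le_sum_of_subset_of_nonneg hsub fun _ _ _ => by positivity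
      _ = 1 := by simp
      _ ≤ _ := by simp
  | succ r ih =>
    set s : ℝ := ∑ p ∈ primesUpTo w, 1 / (p : ℝ) with hs
    set T : Finset ℕ := (S.erase 1).image (fun b => b / b.minFac) with hT
    have hTs : ∑ b ∈ T, 1 / (b : ℝ) ≤ (1 + s) ^ r := by
      refine ih T ?_
      intro b hb
      rw [hT, Finset.mem_image] at hb
      obtain ⟨c, hc, rfl⟩ := hb
      rw [Finset.mem_erase] at hc
      obtain ⟨h0, h1, h2⟩ := hS c hc.2
      obtain ⟨_, _, _, h3, h4, h5⟩ := split_aux h0 hc.1 h1 h2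
      exact ⟨h3, h4, h5⟩
    have hmain : ∑ b ∈ S.erase 1, 1 / (b : ℝ) ≤ s * ∑ b ∈ T, 1 / (b : ℝ) := by
      have himg : (S.erase 1).image (fun b => (b.minFac, b / b.minFac)) ⊆
          primesUpTo w ×ˢ T := by
        intro x hx
        rw [Finset.mem_image] at hx
        obtain ⟨c, hc, rfl⟩ := hx
        have hc' := hc
        rw [Finset.mem_erase] at hc
        obtain ⟨h0, h1, h2⟩ := hS c hc.2
        obtain ⟨h6, h7, _, _, _, _⟩ := split_aux h0 hc.1 h1 h2
        rw [Finset.mem_product]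
        exact ⟨(mem_primesUpTo hw).2 ⟨h6, h7⟩, Finset.mem_image_of_mem _ hc'⟩
      have hinj : Set.InjOn (fun b : ℕ => (b.minFac, b / b.minFac)) (S.erase 1 : Finset ℕ) := by
        intro a ha b hb hab
        rw [Finset.mem_coe] at ha hb
        rw [Finset.mem_erase] at ha hb
        obtain ⟨h0, h1, h2⟩ := hS a ha.2
        obtain ⟨_, _, h3, _, _, _⟩ := split_aux h0 ha.1 h1 h2
        obtain ⟨k0, k1, k2⟩ := hS b hb.2
        obtain ⟨_, _, k3, _, _, _⟩ := split_aux k0 hb.1 k1 k2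
        rw [Prod.mk.injEq] at hab
        rw [h3, k3, hab.2, hab.1]
      calc ∑ b ∈ S.erase 1, 1 / (b : ℝ)
          = ∑ b ∈ S.erase 1, (1 / ((b.minFac : ℕ) : ℝ)) * (1 / ((b / b.minFac : ℕ) : ℝ)) := by
            refine Finset.sum_congr rfl fun b hb => ?_
            rw [Finset.mem_erase] at hb
            obtain ⟨h0, h1, h2⟩ := hS b hb.2
            obtain ⟨_, _, h3, _, _, _⟩ := split_aux h0 hb.1 h1 h2
            have h4 : (b : ℝ) = ((b.minFac : ℕ) : ℝ) * ((b / b.minFac : ℕ) : ℝ) := by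
              rw [← Nat.cast_mul, ← h3]
            rw [one_div_mul_one_div, ← h4]
        _ = ∑ x ∈ (S.erase 1).image (fun b : ℕ => ((b.minFac, b / b.minFac) : ℕ × ℕ)),
              (fun x : ℕ × ℕ => (1 / (x.1 : ℝ)) * (1 / (x.2 : ℝ))) x := by
            rw [Finset.sum_image hinj]
        _ ≤ ∑ x ∈ primesUpTo w ×ˢ T, (fun x : ℕ × ℕ => (1 / (x.1 : ℝ)) * (1 / (x.2 : ℝ))) x :=
            Finset.sum_le_sum_of_subset_of_nonneg himg fun x _ _ => by
              show (0 : ℝ) ≤ (1 / (x.1 : ℝ)) * (1 / (x.2 : ℝ))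
              positivity
        _ = s * ∑ b ∈ T, 1 / (b : ℝ) := by
            rw [Finset.sum_product, hs, Finset.sum_mul_sum]
    have h1 : ∑ b ∈ S, 1 / (b : ℝ) ≤ 1 + ∑ b ∈ S.erase 1, 1 / (b : ℝ) := by
      by_cases h : 1 ∈ S
      · rw [← Finset.add_sum_erase S (fun b : ℕ => 1 / (b : ℝ)) h]
        simp
      · rw [Finset.erase_eq_of_notMem h]
        linarith
    have h2 : (1 : ℝ) ≤ (1 + s) ^ r := one_le_pow₀ (by linarith)
    calc ∑ b ∈ S, 1 / (b : ℝ) ≤ 1 + s * ∑ b ∈ T, 1 / (b : ℝ) := by linarith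
      _ ≤ (1 + s) ^ r + s * (1 + s) ^ r := by
          have := mul_le_mul_of_nonneg_left hTs hs0
          linarith
      _ = (1 + s) ^ (r + 1) := by ring

theorem smooth_le {w : ℝ} (hw : 1 ≤ w) {r b : ℕ} (hb : 0 < b) (h1 : cardFactors b ≤ r)
    (h2 : ∀ p : ℕ, p.Prime → p ∣ b → (p : ℝ) ≤ w) : (b : ℝ) ≤ w ^ r := by
  induction r generalizing b with
  | zero =>
    rw [eq_one_aux hb h1]
    simp
  | succ r ih =>
    by_cases hb1 : b = 1
    · rw [hb1]
      simpa using one_le_pow₀ hw (n := r + 1)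
    · obtain ⟨h3, h4, h5, h6, h7, h8⟩ := split_aux hb hb1 h1 h2
      have h9 := ih h6 h7 h8
      have h10 : (b : ℝ) = ((b.minFac : ℕ) : ℝ) * ((b / b.minFac : ℕ) : ℝ) := by
        rw [← Nat.cast_mul, ← h5]
      rw [h10, pow_succ']
      exact mul_le_mul h4 h9 (by positivity) (by linarith)

end Pool.Agent.Helper4.AR
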