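import Pool.Agent.Helper4.AR.Forms
import Pool.Agent.Helper4.AR.Prods
import Pool.Agent.Helper4.AR.Smooth

/-!
# Rough tuples with an additional almost prime at the shift `t`
-/

set_option autoImplicit false

open Finset

namespace Pool.Agent.Helper4.AR

open Pool.Agent.Helper44 Pool.Agent.Helper96.CPAP
open ArithmeticFunction (cardFactors)

/-- The part of `y` composed of the primes satisfying `P`. -/
private theorem part_exists {y : ℕ} (hy : 0 < y) (P : ℕ → Prop) :
    ∃ b : ℕ, 0 < b ∧ b ∣ y ∧ (∀ p : ℕ, p.Prime → p ∣ b → P p) ∧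
      ∀ q : ℕ, q.Prime → P q → q ∣ y → q ∣ b := by
  classical
  refine ⟨∏ q ∈ y.primeFactors.filter P, q ^ (y.factorization q), ?_, ?_, ?_, ?_⟩
  · apply Finset.prod_pos
    intro q hq
    have h1 := Nat.prime_of_mem_primeFactors (Finset.mem_filter.mp hq).1
    exact pow_pos h1.pos _
  · have h1 : ∏ q ∈ y.primeFactors, q ^ (y.factorization q) = y :=
      Nat.prod_factorization_pow_eq_self hy.ne'
    calc ∏ q ∈ y.primeFactors.filter P, q ^ (y.factorization q) ∣
        ∏ q ∈ y.primeFactors, q ^ (y.factorization q) :=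
          Finset.prod_dvd_prod_of_subset _ _ _ (Finset.filter_subset _ _)
      _ = y := h1
  · intro p hp hpb
    obtain ⟨q, hq, hpq⟩ := (Prime.dvd_finsetProd_iff hp.prime _).mp hpb
    rw [Finset.mem_filter] at hq
    have h1 := Nat.prime_of_mem_primeFactors hq.1
    have h2 : p ∣ q := hp.dvd_of_dvd_pow hpq
    have h3 : p = q := (Nat.prime_dvd_prime_iff_eq hp h1).mp h2
    rw [h3]
    exact hq.2
  · intro q hq hP hqy
    have h1 : q ∈ y.primeFactors.filter P :=
      Finset.mem_filter.mpr ⟨Nat.mem_primeFactors.mpr ⟨hq, hqy, hy.ne'⟩, hP⟩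
    have h2 : q ∣ q ^ (y.factorization q) :=
      dvd_pow_self q (hq.factorization_pos_of_dvd hy.ne' hqy).ne'
    exact h2.trans (Finset.dvd_prod_of_mem (fun q => q ^ (y.factorization q)) h1)

private theorem event_cover {k M a t R : ℕ} {H : Finset ℕ} {w : ℝ} {n : ℕ}
    (hw : 2 ≤ w) (hR : 1 ≤ R) (ha : 0 < a) (h1 : Rough k M a H 1 w n)
    (h2 : cardFactors (a + M * n + t) ≤ R) :
    ((a + M * n + t : ℕ) : ℝ) ≤ w ^ R ∨
      ∃ b : ℕ, (0 < b ∧ cardFactors b ≤ R - 1 ∧
        ∀ p : ℕ, p.Prime → p ∣ b → 2 * (k + 1) ≤ p ∧ (p : ℝ) ≤ w) ∧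
        b ∣ a + M * n + t ∧ Rough k M a (insert t H) b w n := by
  rw [or_iff_not_imp_left]
  intro h3
  have hy : 0 < a + M * n + t := by omega
  obtain ⟨b, hb, hby, hP, hQ⟩ := part_exists hy (fun q => 2 * (k + 1) ≤ q ∧ (q : ℝ) ≤ w)
  refine ⟨b, ⟨hb, ?_, hP⟩, hby, ?_⟩
  · by_contra h4
    obtain ⟨c, hc⟩ := hby
    have hc0 : c ≠ 0 := by
      rintro rfl
      omega
    have h5 : cardFactors (a + M * n + t) = cardFactors b + cardFactors c := by
      rw [hc]
      exact ArithmeticFunction.cardFactors_mul hb.ne' hc0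
    have h6 : cardFactors c = 0 := by omega
    have h7 : c = 1 := by
      rcases ArithmeticFunction.cardFactors_eq_zero_iff_eq_zero_or_one.mp h6 with h | h
      · exact absurd h hc0
      · exact h
    rw [h7, mul_one] at hc
    apply h3
    have h8 : cardFactors b ≤ R := by omega
    have h9 := smooth_le (w := w) (by linarith) hb h8 (fun p hp hpb => (hP p hp hpb).2)
    rw [hc]
    exact h9
  · intro q hq hqw
    rintro ⟨h, hh, hqh⟩
    obtain ⟨hq1, hq2, hq3⟩ := hq
    rcases Finset.mem_insert.mp hh with h4 | h4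
    · rw [h4] at hqh
      exact hq3 (hQ q hq1 ⟨hq2, hqw⟩ hqh)
    · exact h1 q ⟨hq1, hq2, hq1.one_lt.ne' ∘ Nat.dvd_one.mp⟩ hqw ⟨h, h4, hqh⟩

private theorem primeFactors_card_le (b : ℕ) :
    b.primeFactors.card ≤ cardFactors b := by
  rw [ArithmeticFunction.cardFactors_apply]
  have h1 : b.primeFactors = b.primeFactorsList.toFinset := rfl
  rw [h1]
  exact List.toFinset_card_le _

/-- The values of the smooth part. -/
private noncomputable def smoothSet (k R : ℕ) (w : ℝ) : Finset ℕ := by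
  classical
  exact (Finset.Icc 1 ⌊w ^ (R - 1)⌋₊).filter (fun b => cardFactors b ≤ R - 1 ∧
    ∀ p : ℕ, p.Prime → p ∣ b → 2 * (k + 1) ≤ p ∧ (p : ℝ) ≤ w)

private theorem mem_smoothSet {k R : ℕ} {w : ℝ} (hw : 2 ≤ w) {b : ℕ} :
    b ∈ smoothSet k R w ↔ (0 < b ∧ cardFactors b ≤ R - 1 ∧
        ∀ p : ℕ, p.Prime → p ∣ b → 2 * (k + 1) ≤ p ∧ (p : ℝ) ≤ w) := by
  classical
  unfold smoothSet
  rw [Finset.mem_filter, Finset.mem_Icc]
  constructor
  · rintro ⟨⟨h1, _⟩, h2, h3⟩
    exact ⟨h1, h2, h3⟩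
  · rintro ⟨h1, h2, h3⟩
    refine ⟨⟨h1, ?_⟩, h2, h3⟩
    exact Nat.le_floor (smooth_le (by linarith) h1 h2 (fun p hp hpb => (h3 p hp hpb).2))

private theorem card_smoothSet {k R : ℕ} {w : ℝ} (hw : 2 ≤ w) :
    ((smoothSet k R w).card : ℝ) ≤ w ^ R := by
  classical
  have h1 : (smoothSet k R w).card ≤ ⌊w ^ (R - 1)⌋₊ := by
    unfold smoothSet
    refine (Finset.card_filter_le _ _).trans ?_
    rw [Nat.card_Icc]
    omega
  calc ((smoothSet k R w).card : ℝ) ≤ (⌊w ^ (R - 1)⌋₊ : ℝ) := by exact_mod_cast h1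
    _ ≤ w ^ (R - 1) := Nat.floor_le (by positivity)
    _ ≤ w ^ R := pow_le_pow_right₀ (by linarith) (by omega)

private theorem union_bound {k M a t R : ℕ} {H : Finset ℕ} {w : ℝ}
    (hM0 : 0 < M) (hw : 2 ≤ w) (hR : 1 ≤ R) (ha : 0 < a) (N : ℕ) :
    evCount (range N) (fun n => Rough k M a H 1 w n ∧ cardFactors (a + M * n + t) ≤ R) ≤
      (w ^ R + 1) + ∑ b ∈ smoothSet k R w,
        evCount (range N) (fun n => b ∣ a + M * n + t ∧ Rough k M a (insert t H) b w n) := by
  classical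
  set G : ℕ → Finset ℕ := fun b => (range N).filter
    (fun n => b ∣ a + M * n + t ∧ Rough k M a (insert t H) b w n) with hG
  set D : Finset ℕ := (range N).filter
    (fun n => ((a + M * n + t : ℕ) : ℝ) ≤ w ^ R) with hD
  have hsub : (range N).filter
      (fun n => Rough k M a H 1 w n ∧ cardFactors (a + M * n + t) ≤ R) ⊆
      D ∪ (smoothSet k R w).biUnion G := by
    intro n hn
    rw [Finset.mem_filter] at hn
    obtain ⟨h0, h1, h2⟩ := hn
    rw [Finset.mem_union]
    rcases event_cover (t := t) hw hR ha h1 h2 with h3 | ⟨b, h3, h4⟩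
    · left
      exact Finset.mem_filter.mpr ⟨h0, h3⟩
    · right
      rw [Finset.mem_biUnion]
      exact ⟨b, (mem_smoothSet hw).mpr h3, Finset.mem_filter.mpr ⟨h0, h4⟩⟩
  have hDc : (D.card : ℝ) ≤ w ^ R + 1 := by
    have h1 : D ⊆ range (⌊w ^ R⌋₊ + 1) := by
      intro n hn
      rw [hD, Finset.mem_filter] at hn
      rw [Finset.mem_range]
      have h2 : n ≤ a + M * n + t := by nlinarith
      have h3 : (n : ℝ) ≤ w ^ R := le_trans (by exact_mod_cast h2) hn.2
      have h4 := Nat.le_floor h3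
      omega
    have h2 : D.card ≤ ⌊w ^ R⌋₊ + 1 := by
      have := Finset.card_le_card h1
      rwa [Finset.card_range] at this
    have h3 : (⌊w ^ R⌋₊ : ℝ) ≤ w ^ R := Nat.floor_le (by positivity)
    calc (D.card : ℝ) ≤ ((⌊w ^ R⌋₊ + 1 : ℕ) : ℝ) := by exact_mod_cast h2
      _ = (⌊w ^ R⌋₊ : ℝ) + 1 := by push_cast; ring
      _ ≤ w ^ R + 1 := by linarith
  have hcard : (((range N).filter
      (fun n => Rough k M a H 1 w n ∧ cardFactors (a + M * n + t) ≤ R)).card : ℝ) ≤
      (D.card : ℝ) + ∑ b ∈ smoothSet k R w, ((G b).card : ℝ) := by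
    have h1 := (Finset.card_le_card hsub).trans (Finset.card_union_le _ _)
    have h2 : ((smoothSet k R w).biUnion G).card ≤ ∑ b ∈ smoothSet k R w, (G b).card :=
      Finset.card_biUnion_le
    have h3 := h1.trans (Nat.add_le_add_left h2 _)
    exact_mod_cast h3
  rw [evCount_eq]
  have hsum : ∑ b ∈ smoothSet k R w, ((G b).card : ℝ) = ∑ b ∈ smoothSet k R w,
        evCount (range N) (fun n => b ∣ a + M * n + t ∧ Rough k M a (insert t H) b w n) := by
    refine Finset.sum_congr rfl fun b _ => ?_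
    rw [evCount_eq]
  rw [← hsum]
  linarith

/-- For `n` in the set let `y = a + M n + t`.  If `y ≤ w^R` there are at most `w^R + 1` such `n`
(`M > 0`).  Otherwise let `b` be the part of `y` composed of the primes `q` with
`2 (k + 1) ≤ q ≤ w` (`b = ∏ q^(y.factorization q)`); `b` is coprime to `M`, and
`cardFactors b ≤ R - 1` because `y` has a prime factor `> w` or `y` has at most `R` prime factors,
all `≤ w`, and then `y ≤ w^R` (`smooth_le`).  Also `b ∣ y` and `Rough k M a (insert t H) b w n`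
(a prime `q ∤ b`, `2 (k+1) ≤ q ≤ w`, does not divide `y`).  Sum the upper bound of `form_sieve` over
the possible `b ≤ w^(R-1)` (`smooth_le`; so at most `w^R` values), with `V_b_le`
(`b.primeFactors.card ≤ cardFactors b ≤ R - 1`) and `smooth_sum`. -/
theorem count_t : ∃ A : ℝ, 1 ≤ A ∧ ∀ (k M a : ℕ) (H : Finset ℕ), H.card ≤ k → 0 < M →
    (∀ q : ℕ, q.Prime → 2 * (k + 1) ≤ q → ¬ q ∣ M) → 0 < a →
    ∀ t : ℕ, ∀ R : ℕ, 1 ≤ R → ∀ w : ℝ, 2 ≤ w → ∀ N : ℕ,
    evCount (range N) (fun n => Rough k M a H 1 w n ∧ cardFactors (a + M * n + t) ≤ R) ≤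
      2 ^ R * N * V k (insert t H) 1 w * (1 + ∑ p ∈ primesUpTo w, 1 / (p : ℝ)) ^ (R - 1) +
        (w ^ R * w ^ (A * ((k : ℝ) + 2) ^ 2) + (w ^ R + 1)) := by
  classical
  obtain ⟨A, hA, hS⟩ := form_sieve
  refine ⟨A, hA, ?_⟩
  intro k M a H hH hM0 hM ha t R hR w hw N
  have hH' : (insert t H).card ≤ k + 1 := (Finset.card_insert_le t H).trans (by omega)
  have hw0 : (0 : ℝ) ≤ w := by linarith
  have hV : 0 < V k (insert t H) 1 w := V_pos hH' 1 hw0
  have hterm : ∀ b ∈ smoothSet k R w,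
      evCount (range N) (fun n => b ∣ a + M * n + t ∧ Rough k M a (insert t H) b w n) ≤
        2 ^ R * N * V k (insert t H) 1 w * (1 / (b : ℝ)) + w ^ (A * ((k : ℝ) + 2) ^ 2) := by
    intro b hb
    obtain ⟨h1, h2, h3⟩ := (mem_smoothSet hw).mp hb
    have hco : Nat.Coprime b M := by
      apply Nat.Coprime.symm
      rw [Nat.coprime_comm]
      refine Nat.coprime_of_dvd ?_
      intro p hp hpb hpM
      exact hM p hp (h3 p hp hpb).1 hpM
    have h4 := (hS k M a (insert t H) hH' hM b t h1 hco w hw N).1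
    have h5 := V_b_le hH' h1 hw0
    have h6 : (2 : ℝ) ^ b.primeFactors.card ≤ 2 ^ (R - 1) :=
      pow_le_pow_right₀ (by norm_num) ((primeFactors_card_le b).trans h2)
    have h7 : V k (insert t H) b w ≤ 2 ^ (R - 1) * V k (insert t H) 1 w :=
      h5.trans (mul_le_mul_of_nonneg_right h6 hV.le)
    have hbR : (0 : ℝ) < b := by exact_mod_cast h1
    have h8 : 2 * ((N : ℝ) / b) * V k (insert t H) b w ≤
        2 * ((N : ℝ) / b) * (2 ^ (R - 1) * V k (insert t H) 1 w) :=
      mul_le_mul_of_nonneg_left h7 (by positivity)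
    have h9 : (2 : ℝ) ^ R = 2 * 2 ^ (R - 1) := by
      rw [← pow_succ']
      congr 1
      omega
    have h10 : 2 * ((N : ℝ) / b) * (2 ^ (R - 1) * V k (insert t H) 1 w) =
        2 ^ R * N * V k (insert t H) 1 w * (1 / (b : ℝ)) := by
      rw [h9]
      ring
    linarith
  have hsum := Finset.sum_le_sum hterm
  rw [Finset.sum_add_distrib, ← Finset.mul_sum, Finset.sum_const, nsmul_eq_mul] at hsum
  have hss := smooth_sum w hw0 (R - 1) (smoothSet k R w) (by
    intro b hb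
    obtain ⟨h1, h2, h3⟩ := (mem_smoothSet hw).mp hb
    exact ⟨h1, h2, fun p hp hpb => (h3 p hp hpb).2⟩)
  have h11 : 2 ^ R * N * V k (insert t H) 1 w * ∑ b ∈ smoothSet k R w, 1 / (b : ℝ) ≤
      2 ^ R * N * V k (insert t H) 1 w *
        (1 + ∑ p ∈ primesUpTo w, 1 / (p : ℝ)) ^ (R - 1) :=
    mul_le_mul_of_nonneg_left hss (by positivity)
  have h12 : ((smoothSet k R w).card : ℝ) * w ^ (A * ((k : ℝ) + 2) ^ 2) ≤
      w ^ R * w ^ (A * ((k : ℝ) + 2) ^ 2) :=
    mul_le_mul_of_nonneg_right (card_smoothSet hw) (Real.rpow_nonneg hw0 _)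
  have h13 := union_bound (k := k) (t := t) (H := H) hM0 hw hR ha N
  linarith

end Pool.Agent.Helper4.AR
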