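import Pool.Agent.Helper96.CPAP.Window

/-!
# Definitions for uniform runs of almost primes in arithmetic progression
-/

set_option autoImplicit false

open Finset

namespace Pool.Agent.Helper4.AR

open Pool.Agent.Helper44 Pool.Agent.Helper96.CPAP

/-- The shifts `0, d, …, (k-1)d`. -/
def sh (k d : ℕ) : Finset ℕ := (range k).image (fun i => i * d)

/-- The sieving primes: at least `2 (k + 1)` and not dividing `b`. -/
def PB (k b q : ℕ) : Prop := q.Prime ∧ 2 * (k + 1) ≤ q ∧ ¬ q ∣ b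

/-- No `a + M n + h`, `h ∈ H`, has a prime factor `q ≤ w` with `PB k b q`. -/
def Rough (k M a : ℕ) (H : Finset ℕ) (b : ℕ) (w : ℝ) (n : ℕ) : Prop :=
  ∀ q : ℕ, PB k b q → (q : ℝ) ≤ w → ¬ ∃ h ∈ H, q ∣ a + M * n + h

/-- The sieve product. -/
noncomputable def V (k : ℕ) (H : Finset ℕ) (b : ℕ) (w : ℝ) : ℝ :=
  ∏ q ∈ pU (PB k b) w, (1 - (nuH H q : ℝ) / q)

theorem card_sh_le (k d : ℕ) : (sh k d).card ≤ k := by
  unfold sh
  exact Finset.card_image_le.trans (by rw [Finset.card_range])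

theorem mem_sh {k d h : ℕ} : h ∈ sh k d ↔ ∃ i < k, i * d = h := by
  unfold sh
  rw [Finset.mem_image]
  simp only [Finset.mem_range]

theorem PB_prime {k b q : ℕ} (h : PB k b q) : q.Prime := h.1

end Pool.Agent.Helper4.AR
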