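import Pool.Agent.Helper96.CPAP.SieveK

/-!
# The Brun-Hooley sieve in dimension `k` with level `w ^ (A (k+1)^2)`, `A` absolute

PROOF: copy `Pool.Agent.Helper96.CPAP.sieveK` (file Pool/Agent/Helper96/CPAP/SieveK.lean) with
`b := ⌈4 S1⌉₊`, `S1 = k S0` (`S0` absolute).  Then `K0 = (k+2)(4b+6) ≤ A' (k+1)^2`.  The tail:
for `n ≥ 2b+1 ≥ 8 S1 ≥ e^2 S1` one has `S1^n/n! ≤ (S1/n)^n e^n ≤ e^(-n)`
(`Real.pow_div_factorial_le_exp`), so `∑_{j} S1^(2(b+j)+1)/(2(b+j)+1)! ≤ e^(-(2b+1)) ∑_j e^(-2j)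
≤ e^(-2 S1)/2`.  The lower bound with the product `∏ (1 - ν q/q)` is what `brun_hooleyK` gives
(in `sieveK` it is then bounded below by `prod_lower_bound`; here keep the product).
-/

set_option autoImplicit false

open Finset Real

namespace Pool.Agent.Helper4.AR

open Pool.Agent.Helper44 Pool.Agent.Helper96.CPAP

/-- The tail of the exponential series beyond `8 S`. -/
private theorem term_le (S : ℝ) (hS : 0 ≤ S) (n : ℕ) (hn : 8 * S ≤ n) (hn0 : 0 < n) :
    S ^ n / (n.factorial : ℝ) ≤ Real.exp (-(n : ℝ)) := by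
  have hnr : (0 : ℝ) < n := by exact_mod_cast hn0
  have h1 : (n : ℝ) ^ n / (n.factorial : ℝ) ≤ Real.exp n :=
    Real.pow_div_factorial_le_exp n hnr.le n
  have h2 : S / n ≤ Real.exp (-2) := by
    have h3 : Real.exp 2 ≤ 8 := by
      have h4 := Real.exp_one_lt_d9
      have h5 : Real.exp 2 = Real.exp 1 * Real.exp 1 := by
        rw [← Real.exp_add]; norm_num
      rw [h5]
      have h6 := Real.exp_pos 1
      nlinarith
    rw [div_le_iff₀ hnr, Real.exp_neg]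
    have h7 : (1 / 8 : ℝ) ≤ (Real.exp 2)⁻¹ := by
      rw [one_div]
      exact inv_anti₀ (Real.exp_pos 2) h3
    calc S ≤ 1 / 8 * n := by linarith
      _ ≤ (Real.exp 2)⁻¹ * n := mul_le_mul_of_nonneg_right h7 hnr.le
  have h3 : S ^ n / (n.factorial : ℝ) = (S / n) ^ n * ((n : ℝ) ^ n / (n.factorial : ℝ)) := by
    rw [div_pow]
    have : (n : ℝ) ^ n ≠ 0 := pow_ne_zero _ hnr.ne'
    field_simp
  rw [h3]
  calc (S / n) ^ n * ((n : ℝ) ^ n / (n.factorial : ℝ))
      ≤ (Real.exp (-2)) ^ n * Real.exp n :=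
        mul_le_mul (pow_le_pow_left₀ (div_nonneg hS hnr.le) h2 n) h1 (by positivity)
          (by positivity)
    _ = Real.exp (-(n : ℝ)) := by
        rw [← Real.exp_nat_mul, ← Real.exp_add]
        congr 1
        ring

private theorem tail_le (S : ℝ) (hS : 0 ≤ S) (b : ℕ) (hb : 4 * S ≤ b) (m : ℕ) :
    ∑ j : Fin m, S ^ (2 * (b + (j : ℕ)) + 1) / ((2 * (b + (j : ℕ)) + 1).factorial : ℝ) ≤
      Real.exp (-(2 * S)) / 2 := by
  have h1 : ∀ j : Fin m, S ^ (2 * (b + (j : ℕ)) + 1) / ((2 * (b + (j : ℕ)) + 1).factorial : ℝ) ≤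
      Real.exp (-(2 * S)) * (Real.exp (-1) * (Real.exp (-2)) ^ (j : ℕ)) := by
    intro j
    refine (term_le S hS _ ?_ (by omega)).trans ?_
    · push_cast
      have : (0 : ℝ) ≤ (j : ℕ) := Nat.cast_nonneg _
      linarith
    · rw [← Real.exp_nat_mul, ← Real.exp_add, ← Real.exp_add]
      apply Real.exp_le_exp.mpr
      push_cast
      linarith
  refine (Finset.sum_le_sum fun j _ => h1 j).trans ?_
  rw [← Finset.mul_sum, ← Finset.mul_sum,
    Fin.sum_univ_eq_sum_range (fun j => (Real.exp (-2)) ^ j) m]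
  have hE : Real.exp (-2) ≤ 4 / 25 := by
    have h4 := Real.exp_one_gt_d9
    have h5 : Real.exp 2 = Real.exp 1 * Real.exp 1 := by
      rw [← Real.exp_add]; norm_num
    have h6 : (25 / 4 : ℝ) ≤ Real.exp 2 := by
      rw [h5]
      nlinarith
    rw [Real.exp_neg]
    calc (Real.exp 2)⁻¹ ≤ (25 / 4 : ℝ)⁻¹ := inv_anti₀ (by norm_num) h6
      _ = 4 / 25 := by norm_num
  have hE1 : Real.exp (-1) ≤ 2 / 5 := by
    have h4 := Real.exp_one_gt_d9
    rw [Real.exp_neg]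
    calc (Real.exp 1)⁻¹ ≤ (5 / 2 : ℝ)⁻¹ := inv_anti₀ (by norm_num) (by linarith)
      _ = 2 / 5 := by norm_num
  have hg : ∀ n : ℕ, ∑ j ∈ range n, (Real.exp (-2)) ^ j ≤ 25 / 21 := by
    intro n
    calc ∑ j ∈ range n, (Real.exp (-2)) ^ j ≤ ∑ j ∈ range n, (4 / 25 : ℝ) ^ j :=
          Finset.sum_le_sum fun j _ => pow_le_pow_left₀ (Real.exp_pos _).le hE j
      _ = ((4 / 25 : ℝ) ^ n - 1) / (4 / 25 - 1) := geom_sum_eq (by norm_num) n
      _ ≤ 25 / 21 := by
          have : (0 : ℝ) ≤ (4 / 25 : ℝ) ^ n := by positivity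
          have e : ((4 / 25 : ℝ) ^ n - 1) / (4 / 25 - 1) = 25 / 21 - 25 / 21 * (4 / 25 : ℝ) ^ n := by
            ring
          rw [e]
          linarith
  have h2 : Real.exp (-1) * ∑ j ∈ range m, (Real.exp (-2)) ^ j ≤ 1 / 2 := by
    calc Real.exp (-1) * ∑ j ∈ range m, (Real.exp (-2)) ^ j ≤ 2 / 5 * (25 / 21) :=
          mul_le_mul hE1 (hg m) (Finset.sum_nonneg fun j _ => by positivity) (by norm_num)
      _ ≤ 1 / 2 := by norm_num
  calc Real.exp (-(2 * S)) * (Real.exp (-1) * ∑ j ∈ range m, (Real.exp (-2)) ^ j)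
      ≤ Real.exp (-(2 * S)) * (1 / 2) := mul_le_mul_of_nonneg_left h2 (Real.exp_pos _).le
    _ = Real.exp (-(2 * S)) / 2 := by ring

/-- The `k`-dimensional Brun-Hooley sieve with explicit dependence of the level on `k`. -/
theorem sieveE : ∃ A : ℝ, 1 ≤ A ∧ ∀ k : ℕ, ∀ (α : Type) (P : ℕ → Prop),
    (∀ q, P q → q.Prime ∧ 2 * k ≤ q) → ∀ ν : ℕ → ℝ, (∀ q, P q → 0 ≤ ν q ∧ ν q ≤ k) →
    ∀ w : ℝ, 2 ≤ w → ∀ (Ω : Finset α) (occ : ℕ → α → Prop) (X E : ℝ), 0 ≤ X → 0 ≤ E →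
    (∀ I : Finset ℕ, (∀ q ∈ I, P q ∧ (q : ℝ) ≤ w) →
      |evCount Ω (fun ω => ∀ q ∈ I, occ q ω) - X * ∏ q ∈ I, (ν q / q)| ≤
        E * ((k : ℝ) + 1) ^ I.card) →
    evCount Ω (fun ω => ∀ q : ℕ, P q → (q : ℝ) ≤ w → ¬ occ q ω) ≤
        2 * X * (∏ q ∈ pU P w, (1 - ν q / q)) + E * w ^ (A * ((k : ℝ) + 1) ^ 2) ∧
    1 / 2 * X * (∏ q ∈ pU P w, (1 - ν q / q)) - E * w ^ (A * ((k : ℝ) + 1) ^ 2) ≤
      evCount Ω (fun ω => ∀ q : ℕ, P q → (q : ℝ) ≤ w → ¬ occ q ω) := by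
  obtain ⟨S0, hS0, hS⟩ := sum_inv_pb_le
  refine ⟨32 * S0 + 22, by linarith, ?_⟩
  intro k
  set S1 : ℝ := k * S0 with hS1
  have hk0 : (0 : ℝ) ≤ k := Nat.cast_nonneg k
  have hS1n : 0 ≤ S1 := by positivity
  set b := ⌈4 * S1⌉₊ with hb
  have hb1 : 4 * S1 ≤ b := Nat.le_ceil _
  have hb2 : (b : ℝ) < 4 * S1 + 1 := Nat.ceil_lt_add_one (by positivity)
  set K0 : ℝ := ((k : ℝ) + 2) * (4 * b + 6) with hK0
  have hK0' : 0 ≤ K0 := by positivity
  have hK0A : K0 + 2 ≤ (32 * S0 + 22) * ((k : ℝ) + 1) ^ 2 := by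
    have h1 : 4 * (b : ℝ) + 6 ≤ (16 * S0 + 10) * ((k : ℝ) + 1) := by
      have : 4 * (b : ℝ) + 6 ≤ 16 * (k * S0) + 10 := by
        rw [hS1] at hb2
        linarith
      nlinarith
    have h2 : (k : ℝ) + 2 ≤ 2 * ((k : ℝ) + 1) := by linarith
    have h3 : K0 ≤ (2 * ((k : ℝ) + 1)) * ((16 * S0 + 10) * ((k : ℝ) + 1)) := by
      rw [hK0]
      exact mul_le_mul h2 h1 (by positivity) (by positivity)
    have h4 : (1 : ℝ) ≤ ((k : ℝ) + 1) ^ 2 := one_le_pow₀ (by linarith)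
    nlinarith
  intro α P hP ν hν w hw Ω occ X E hX hE hcnt
  have hP' : ∀ q, P q → q.Prime := fun q h => (hP q h).1
  have hw1 : (1 : ℝ) ≤ w := by linarith
  have hw0 : (0 : ℝ) < w := by linarith
  have hdisj : ∀ i j : Fin (nb w), i ≠ j → Disjoint (pb P w i) (pb P w j) := by
    intro i j hij
    exact pb_disjoint hw1 (fun h => hij (Fin.ext h))
  have hx : ∀ j : ℕ, ∀ i ∈ pb P w j, 0 ≤ ν i / i ∧ ν i / i ≤ 1 / 2 := by
    intro j i hi
    rw [mem_pb] at hi
    have h1 := hP i hi.2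
    have h2 := hν i hi.2
    have hq0 : (0 : ℝ) < i := by exact_mod_cast h1.1.pos
    have h3 : (2 : ℝ) * k ≤ i := by exact_mod_cast h1.2
    refine ⟨div_nonneg h2.1 hq0.le, ?_⟩
    rw [div_le_iff₀ hq0]
    linarith
  have hcnt' : ∀ I : Finset ℕ,
      I ⊆ Finset.univ.biUnion (fun j : Fin (nb w) => pb P w j) →
      |evCount Ω (fun ω => ∀ i ∈ I, occ i ω) - X * ∏ i ∈ I, (ν i / i)| ≤
        E * ((k : ℝ) + 1) ^ I.card := by
    intro I hI
    apply hcnt
    intro q hq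
    have := hI hq
    rwa [biUnion_pb hP' hw, mem_pU hP' hw0.le] at this
  have hsumx : ∀ j : ℕ, ∑ i ∈ pb P w j, ν i / i ≤ S1 := by
    intro j
    calc ∑ i ∈ pb P w j, ν i / i ≤ ∑ i ∈ pb P w j, k * ((1 : ℝ) / i) := by
          apply Finset.sum_le_sum
          intro i hi
          rw [mem_pb] at hi
          have hq0 : (0 : ℝ) < i := by exact_mod_cast (hP' i hi.2).pos
          rw [mul_one_div]
          exact div_le_div_of_nonneg_right (hν i hi.2).2 hq0.le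
      _ = k * ∑ i ∈ pb P w j, (1 : ℝ) / i := by rw [Finset.mul_sum]
      _ ≤ k * S0 := mul_le_mul_of_nonneg_left (hS P hP' w hw j) (by positivity)
  have hVlow : ∀ j : Fin (nb w), Real.exp (-(2 * S1)) ≤ ∏ i ∈ pb P w j, (1 - ν i / i) := by
    intro j
    calc Real.exp (-(2 * S1)) ≤ Real.exp (-∑ i ∈ pb P w j, 2 * (ν i / i)) := by
          apply Real.exp_le_exp.mpr
          rw [← Finset.mul_sum]
          have := hsumx j
          linarith
      _ = ∏ i ∈ pb P w j, Real.exp (-(2 * (ν i / i))) := by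
          rw [← Finset.sum_neg_distrib, Real.exp_sum]
      _ ≤ _ := by
          apply Finset.prod_le_prod
          · intro i _; exact (Real.exp_pos _).le
          · intro i hi
            have := hx j i hi
            exact one_sub_ge_exp this.1 this.2
  have hr : ∑ j : Fin (nb w), es (pb P w j) (2 * (b + (j : ℕ)) + 1) (fun q => ν q / q) /
      ∏ i ∈ pb P w j, (1 - ν i / i) ≤ 1 / 2 := by
    have hterm : ∀ j : Fin (nb w), es (pb P w j) (2 * (b + (j : ℕ)) + 1) (fun q => ν q / q) /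
        ∏ i ∈ pb P w j, (1 - ν i / i) ≤
        (S1 ^ (2 * (b + (j : ℕ)) + 1) / ((2 * (b + (j : ℕ)) + 1).factorial : ℝ)) *
          Real.exp (2 * S1) := by
      intro j
      have h1 : es (pb P w j) (2 * (b + (j : ℕ)) + 1) (fun q => ν q / q) ≤
          S1 ^ (2 * (b + (j : ℕ)) + 1) / ((2 * (b + (j : ℕ)) + 1).factorial : ℝ) := by
        refine (es_le_pow_div_factorial _ _ (fun i hi => (hx j i hi).1) _).trans ?_
        apply div_le_div_of_nonneg_right _ (by positivity)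
        apply pow_le_pow_left₀ (Finset.sum_nonneg fun i hi => (hx j i hi).1) (hsumx j)
      have h2 := hVlow j
      have h3 : 0 < Real.exp (-(2 * S1)) := Real.exp_pos _
      rw [div_le_iff₀ (h3.trans_le h2)]
      calc es (pb P w j) (2 * (b + (j : ℕ)) + 1) (fun q => ν q / q)
          ≤ S1 ^ (2 * (b + (j : ℕ)) + 1) / ((2 * (b + (j : ℕ)) + 1).factorial : ℝ) * 1 := by
            rw [mul_one]; exact h1
        _ = S1 ^ (2 * (b + (j : ℕ)) + 1) / ((2 * (b + (j : ℕ)) + 1).factorial : ℝ) *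
              (Real.exp (2 * S1) * Real.exp (-(2 * S1))) := by
            rw [← Real.exp_add]; simp
        _ ≤ S1 ^ (2 * (b + (j : ℕ)) + 1) / ((2 * (b + (j : ℕ)) + 1).factorial : ℝ) *
              (Real.exp (2 * S1) * ∏ i ∈ pb P w j, (1 - ν i / i)) := by
            gcongr
        _ = _ := by ring
    calc ∑ j : Fin (nb w), es (pb P w j) (2 * (b + (j : ℕ)) + 1) (fun q => ν q / q) /
          ∏ i ∈ pb P w j, (1 - ν i / i)
        ≤ ∑ j : Fin (nb w), (S1 ^ (2 * (b + (j : ℕ)) + 1) /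
            ((2 * (b + (j : ℕ)) + 1).factorial : ℝ)) * Real.exp (2 * S1) :=
          Finset.sum_le_sum fun j _ => hterm j
      _ = (∑ j : Fin (nb w), S1 ^ (2 * (b + (j : ℕ)) + 1) /
            ((2 * (b + (j : ℕ)) + 1).factorial : ℝ)) * Real.exp (2 * S1) := by
          rw [← Finset.sum_mul]
      _ ≤ (Real.exp (-(2 * S1)) / 2) * Real.exp (2 * S1) := by
          apply mul_le_mul_of_nonneg_right _ (Real.exp_pos _).le
          exact tail_le S1 hS1n b hb1 (nb w)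
      _ = 1 / 2 := by
          rw [div_mul_eq_mul_div, ← Real.exp_add]; simp
  have hmain := brun_hooleyK Ω occ (fun j : Fin (nb w) => pb P w j) hdisj (fun q => ν q / q)
    (fun j i hi => hx j i hi) X E ((k : ℝ) + 1) hX hE (by linarith)
    hcnt' (fun j => 2 * (b + (j : ℕ)))
    (fun j => even_two_mul _) hr
  -- identify the event
  have hevent : (fun ω : α => ∀ j : Fin (nb w), ∀ i ∈ pb P w j, ¬ occ i ω) =
      (fun ω => ∀ q : ℕ, P q → (q : ℝ) ≤ w → ¬ occ q ω) := by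
    funext ω
    apply propext
    constructor
    · intro h q hq hqw
      have : q ∈ (Finset.univ : Finset (Fin (nb w))).biUnion (fun j => pb P w j) := by
        rw [biUnion_pb hP' hw, mem_pU hP' hw0.le]
        exact ⟨hq, hqw⟩
      rw [Finset.mem_biUnion] at this
      obtain ⟨j, _, hj⟩ := this
      exact h j q hj
    · intro h j i hi
      have hi' : i ∈ (Finset.univ : Finset (Fin (nb w))).biUnion (fun j => pb P w j) :=
        Finset.mem_biUnion.mpr ⟨j, Finset.mem_univ _, hi⟩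
      rw [biUnion_pb hP' hw, mem_pU hP' hw0.le] at hi'
      exact h i hi'.1 hi'.2
  rw [hevent] at hmain
  -- the product
  have hprodV : ∏ j : Fin (nb w), ∏ i ∈ pb P w j, (1 - ν i / i) =
      ∏ q ∈ pU P w, (1 - ν q / q) := by
    rw [← Finset.prod_biUnion, biUnion_pb hP' hw]
    intro i _ j _ hij
    exact hdisj i j hij
  rw [hprodV] at hmain
  have hprod := prod_pb_card_le hP' k hw b
  have hprod0 : 0 ≤ ∏ j : Fin (nb w),
      (((k : ℝ) + 1) * ((pb P w j).card : ℝ) + 1) ^ (2 * (b + (j : ℕ)) + 1) :=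
    Finset.prod_nonneg fun j _ => by positivity
  have hwK : w ^ (K0 + 2) = w ^ K0 * w ^ 2 := by
    rw [Real.rpow_add hw0]
    norm_num
  have hwK0 : 0 < w ^ K0 := Real.rpow_pos_of_pos hw0 _
  have hnb : (nb w : ℝ) + 1 ≤ w ^ 2 := by
    unfold nb
    push_cast
    have := Nat.floor_le hw0.le
    nlinarith
  have hwA : w ^ (K0 + 2) ≤ w ^ ((32 * S0 + 22) * ((k : ℝ) + 1) ^ 2) :=
    Real.rpow_le_rpow_of_exponent_le hw1 hK0A
  constructor
  · refine hmain.1.trans ?_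
    have h2 : E * ∏ j : Fin (nb w),
        (((k : ℝ) + 1) * ((pb P w j).card : ℝ) + 1) ^ (2 * (b + (j : ℕ)) + 1) ≤
        E * w ^ ((32 * S0 + 22) * ((k : ℝ) + 1) ^ 2) := by
      apply mul_le_mul_of_nonneg_left _ hE
      refine le_trans ?_ hwA
      refine hprod.trans ?_
      rw [hwK]
      have : (1 : ℝ) ≤ w ^ 2 := one_le_pow₀ hw1
      nlinarith
    linarith
  · refine le_trans ?_ hmain.2
    have h2 : E * (((nb w : ℕ) + 1) *
        ∏ j : Fin (nb w), (((k : ℝ) + 1) * ((pb P w j).card : ℝ) + 1) ^ (2 * (b + (j : ℕ)) + 1)) ≤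
        E * w ^ ((32 * S0 + 22) * ((k : ℝ) + 1) ^ 2) := by
      apply mul_le_mul_of_nonneg_left _ hE
      refine le_trans ?_ hwA
      rw [hwK, mul_comm (w ^ K0)]
      exact mul_le_mul hnb hprod hprod0 (by positivity)
    linarith

end Pool.Agent.Helper4.AR
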