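import Pool.Agent.Helper4.AR.Defs
import Pool.Agent.Helper4.AR.SieveE

/-!
# The sieve for the forms `a + M n + h`, `h ∈ H`, with a divisibility condition

PROOF: apply `sieveE` in dimension `k + 1` with `P = PB k b`, `ν q = nuH H q`
(`nuH_le : nuH H q ≤ H.card`), `Ω = (range N).filter (b ∣ a + M n + t)`, `X = N / b`, `E = 1`,
`occ q n = ∃ h ∈ H, q ∣ a + M n + h`.  The counting hypothesis: for a finite set `I` of primes
satisfying `PB k b` the condition `b ∣ a+Mn+t ∧ ∀ q ∈ I, ∃ h ∈ H, q ∣ a+Mn+h` is periodic in `n`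
with period `b ∏ q`, with exactly `∏ nuH H q` solutions in a period (`M` is invertible modulo `b`
and modulo each `q`: `n ↦ a + M n` permutes the residues modulo `q`; `card_crt`, induction as in
`card_occ_prod`/`card_occH_prod`), then `count_periodic_bound`; the error is
`∏ nuH H q ≤ (k+1)^|I| ≤ (k+2)^|I|`.
-/

set_option autoImplicit false

open Finset

namespace Pool.Agent.Helper4.AR

open Pool.Agent.Helper44 Pool.Agent.Helper96.CPAP

private theorem card_affine {b M a : ℕ} (hb : 0 < b) (hco : Nat.Coprime b M) (P : ℕ → Prop)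
    [DecidablePred P] :
    ((range b).filter (fun n => P ((a + M * n) % b))).card = ((range b).filter P).card := by
  classical
  set f : ℕ → ℕ := fun n => (a + M * n) % b with hf
  have hinj : Set.InjOn f (range b : Finset ℕ) := by
    intro x hx y hy hxy
    rw [Finset.mem_coe, Finset.mem_range] at hx hy
    have h1 : a + M * x ≡ a + M * y [MOD b] := hxy
    have h2 : M * x ≡ M * y [MOD b] := Nat.ModEq.add_left_cancel' a h1
    have h3 : x ≡ y [MOD b] := Nat.ModEq.cancel_left_of_coprime hco h2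
    exact Nat.ModEq.eq_of_lt_of_lt h3 hx hy
  have himg : (range b).image f = range b := by
    apply Finset.eq_of_subset_of_card_le
    · intro x hx
      rw [Finset.mem_image] at hx
      obtain ⟨n, _, rfl⟩ := hx
      exact Finset.mem_range.mpr (Nat.mod_lt _ hb)
    · rw [Finset.card_image_of_injOn hinj]
  have h1 : (range b).filter P = ((range b).filter (fun n => P (f n))).image f := by
    conv_lhs => rw [← himg]
    rw [Finset.filter_image]
  rw [h1, Finset.card_image_of_injOn]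
  refine hinj.mono ?_
  intro x hx
  exact Finset.mem_coe.mpr (Finset.mem_of_mem_filter x (Finset.mem_coe.mp hx))

private theorem dvd_mod_add {q Q m h : ℕ} (hqQ : q ∣ Q) : q ∣ m % Q + h ↔ q ∣ m + h := by
  have h1 : m % Q + h ≡ m + h [MOD q] := ((Nat.mod_modEq m Q).of_dvd hqQ).add_right h
  exact ⟨fun h' => (Nat.ModEq.dvd_iff h1 dvd_rfl).mp h',
    fun h' => (Nat.ModEq.dvd_iff h1 dvd_rfl).mpr h'⟩

private theorem dvd_arg_mod {q Q M a n h : ℕ} (hqQ : q ∣ Q) :
    q ∣ a + M * (n % Q) + h ↔ q ∣ a + M * n + h := by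
  have h1 : a + M * (n % Q) + h ≡ a + M * n + h [MOD q] := by
    apply Nat.ModEq.add_right
    apply Nat.ModEq.add_left
    exact ((Nat.mod_modEq n Q).of_dvd hqQ).mul_left M
  exact ⟨fun h' => (Nat.ModEq.dvd_iff h1 dvd_rfl).mp h',
    fun h' => (Nat.ModEq.dvd_iff h1 dvd_rfl).mpr h'⟩

private theorem card_form_prime {q M a : ℕ} (H : Finset ℕ) (hq : 0 < q) (hco : Nat.Coprime q M)
    [DecidablePred (fun n => ∃ h ∈ H, q ∣ a + M * n + h)] :
    ((range q).filter (fun n => ∃ h ∈ H, q ∣ a + M * n + h)).card = nuH H q := by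
  classical
  have h1 := card_affine (a := a) hq hco (fun n => ∃ h ∈ H, q ∣ n + h)
  have h2 : nuH H q = ((range q).filter (fun n => ∃ h ∈ H, q ∣ n + h)).card := by
    unfold nuH
    congr 1
  rw [h2, ← h1]
  congr 1
  apply Finset.filter_congr
  intro n _
  apply exists_congr
  intro h
  apply and_congr_right
  intro _
  exact (dvd_mod_add dvd_rfl).symm

private theorem card_form_prod {M a : ℕ} (H I : Finset ℕ) (hI : ∀ q ∈ I, q.Prime ∧ ¬ q ∣ M)
    [DecidablePred (fun n => ∀ q ∈ I, ∃ h ∈ H, q ∣ a + M * n + h)] :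
    ((range (∏ q ∈ I, q)).filter (fun n => ∀ q ∈ I, ∃ h ∈ H, q ∣ a + M * n + h)).card =
      ∏ q ∈ I, nuH H q := by
  classical
  have key : ∀ I : Finset ℕ, (∀ q ∈ I, q.Prime ∧ ¬ q ∣ M) →
      ((range (∏ q ∈ I, q)).filter (fun n => ∀ q ∈ I, ∃ h ∈ H, q ∣ a + M * n + h)).card =
      ∏ q ∈ I, nuH H q := by
    intro I
    induction I using Finset.induction_on with
    | empty => intro _; simp
    | insert q I hqI ih =>
      intro hI
      have hq := hI q (Finset.mem_insert_self _ _)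
      have hI' : ∀ q ∈ I, q.Prime ∧ ¬ q ∣ M := fun q' hq' => hI q' (Finset.mem_insert_of_mem hq')
      have hco : Nat.Coprime q (∏ q ∈ I, q) := by
        apply Nat.Coprime.prod_right
        intro q' hq'
        exact (Nat.coprime_primes hq.1 (hI' q' hq').1).mpr (fun h => hqI (h ▸ hq'))
      have hpos : 0 < ∏ q ∈ I, q := Finset.prod_pos fun q' hq' => (hI' q' hq').1.pos
      rw [Finset.prod_insert hqI, Finset.prod_insert hqI, ← ih hI',
        ← card_form_prime (a := a) H hq.1.pos ((Nat.Prime.coprime_iff_not_dvd hq.1).mpr hq.2),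
        ← card_crt hco hq.1.pos hpos]
      · congr 1
        apply Finset.filter_congr
        intro n _
        rw [Finset.forall_mem_insert]
      · intro n
        apply exists_congr
        intro h
        apply and_congr_right
        intro _
        exact dvd_arg_mod dvd_rfl
      · intro n
        apply forall₂_congr
        intro q' hq'
        apply exists_congr
        intro h
        apply and_congr_right
        intro _
        exact dvd_arg_mod (Finset.dvd_prod_of_mem _ hq')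
  have h := key I hI
  rw [← h]
  congr 1
  ext n
  simp only [Finset.mem_filter]

private theorem count_form {k M a : ℕ} (H : Finset ℕ) (hH : H.card ≤ k + 1)
    (hM : ∀ q : ℕ, q.Prime → 2 * (k + 1) ≤ q → ¬ q ∣ M) {b t : ℕ} (hb : 0 < b)
    (hbM : Nat.Coprime b M) (I : Finset ℕ) (hI : ∀ q ∈ I, PB k b q) (N : ℕ) :
    |evCount (range N) (fun n => b ∣ a + M * n + t ∧ ∀ q ∈ I, ∃ h ∈ H, q ∣ a + M * n + h) -
      (N : ℝ) / b * ∏ q ∈ I, ((nuH H q : ℝ) / q)| ≤ 1 * (((k + 1 : ℕ) : ℝ) + 1) ^ I.card := by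
  classical
  have hI1 : ∀ q ∈ I, q.Prime ∧ ¬ q ∣ M := fun q hq =>
    ⟨(hI q hq).1, hM q (hI q hq).1 (hI q hq).2.1⟩
  have hcob : Nat.Coprime b (∏ q ∈ I, q) := by
    apply Nat.Coprime.prod_right
    intro q hq
    exact ((Nat.Prime.coprime_iff_not_dvd (hI q hq).1).mpr (hI q hq).2.2).symm
  have hpos : 0 < ∏ q ∈ I, q := Finset.prod_pos fun q hq => (hI q hq).1.pos
  have hcard : ((range (b * ∏ q ∈ I, q)).filter
      (fun n => b ∣ a + M * n + t ∧ ∀ q ∈ I, ∃ h ∈ H, q ∣ a + M * n + h)).card =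
      ∏ q ∈ I, nuH H q := by
    rw [card_crt hcob hb hpos (fun n => b ∣ a + M * n + t)
      (fun n => ∀ q ∈ I, ∃ h ∈ H, q ∣ a + M * n + h)]
    · rw [card_form_prod H I hI1]
      have h1 : ((range b).filter (fun n => b ∣ a + M * n + t)).card = 1 := by
        have h2 := card_form_prime (a := a) {t} hb hbM
        rw [nuH_eq_image hb] at h2
        simp only [Finset.mem_singleton, exists_eq_left, Finset.image_singleton,
          Finset.card_singleton] at h2
        exact h2
      rw [h1, one_mul]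
    · intro n
      exact dvd_arg_mod dvd_rfl
    · intro n
      apply forall₂_congr
      intro q' hq'
      apply exists_congr
      intro h
      apply and_congr_right
      intro _
      exact dvd_arg_mod (Finset.dvd_prod_of_mem _ hq')
  have hper : ∀ n, (b ∣ a + M * (n + b * ∏ q ∈ I, q) + t ∧
      ∀ q ∈ I, ∃ h ∈ H, q ∣ a + M * (n + b * ∏ q ∈ I, q) + h) ↔
      (b ∣ a + M * n + t ∧ ∀ q ∈ I, ∃ h ∈ H, q ∣ a + M * n + h) := by
    intro n
    have h0 : ∀ q h : ℕ, q ∣ b * ∏ q ∈ I, q →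
        (q ∣ a + M * (n + b * ∏ q ∈ I, q) + h ↔ q ∣ a + M * n + h) := by
      intro q h hq
      rw [← dvd_arg_mod (n := n + b * ∏ q ∈ I, q) hq, ← dvd_arg_mod (n := n) hq, Nat.add_mod_right]
    apply and_congr (h0 b t (Dvd.intro _ rfl))
    apply forall₂_congr
    intro q' hq'
    apply exists_congr
    intro h
    apply and_congr_right
    intro _
    exact h0 q' h ((Finset.dvd_prod_of_mem _ hq').mul_left b)
  have h1 := count_periodic_bound
    (p := fun n => b ∣ a + M * n + t ∧ ∀ q ∈ I, ∃ h ∈ H, q ∣ a + M * n + h)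
    (Nat.mul_pos hb hpos) hper N
  rw [Nat.count_eq_card_filter_range, Nat.count_eq_card_filter_range, hcard] at h1
  rw [evCount_eq, Finset.prod_div_distrib]
  push_cast at h1
  have hb0 : (0 : ℝ) < b := by exact_mod_cast hb
  have e1 : (N : ℝ) / b * ((∏ q ∈ I, (nuH H q : ℝ)) / ∏ q ∈ I, (q : ℝ)) =
      (N : ℝ) * ((∏ q ∈ I, (nuH H q : ℝ)) / ((b : ℝ) * ∏ q ∈ I, (q : ℝ))) := by
    rw [div_mul_div_comm, mul_div_assoc]
  rw [e1]
  refine h1.trans ?_
  rw [one_mul, ← Finset.prod_const]
  apply Finset.prod_le_prod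
  · intro q _; positivity
  · intro q hq
    have h3 : nuH H q ≤ k + 1 := (nuH_le (hI q hq).1.pos).trans hH
    have h4 : (nuH H q : ℝ) ≤ ((k + 1 : ℕ) : ℝ) := by exact_mod_cast h3
    linarith

theorem form_sieve : ∃ A : ℝ, 1 ≤ A ∧ ∀ (k M a : ℕ) (H : Finset ℕ), H.card ≤ k + 1 →
    (∀ q : ℕ, q.Prime → 2 * (k + 1) ≤ q → ¬ q ∣ M) →
    ∀ b t : ℕ, 0 < b → Nat.Coprime b M → ∀ w : ℝ, 2 ≤ w → ∀ N : ℕ,
    evCount (range N) (fun n => b ∣ a + M * n + t ∧ Rough k M a H b w n) ≤
      2 * ((N : ℝ) / b) * V k H b w + w ^ (A * ((k : ℝ) + 2) ^ 2) ∧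
    1 / 2 * ((N : ℝ) / b) * V k H b w - w ^ (A * ((k : ℝ) + 2) ^ 2) ≤
      evCount (range N) (fun n => b ∣ a + M * n + t ∧ Rough k M a H b w n) := by
  classical
  obtain ⟨A, hA, hS⟩ := sieveE
  refine ⟨A, hA, ?_⟩
  intro k M a H hH hM b t hb hbM w hw N
  have hfilter : ∀ P : ℕ → Prop,
      evCount ((range N).filter (fun n => b ∣ a + M * n + t)) P =
        evCount (range N) (fun n => b ∣ a + M * n + t ∧ P n) := by
    intro P
    rw [evCount_eq, evCount_eq, Finset.filter_filter]
  have hs := hS (k + 1) ℕ (PB k b) (fun q hq => ⟨hq.1, hq.2.1⟩) (fun q => (nuH H q : ℝ))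
    (fun q hq => ⟨by positivity, by exact_mod_cast (nuH_le hq.1.pos).trans hH⟩) w hw
    ((range N).filter (fun n => b ∣ a + M * n + t)) (fun q n => ∃ h ∈ H, q ∣ a + M * n + h)
    ((N : ℝ) / b) 1 (by positivity) zero_le_one (by
      intro I hI
      rw [hfilter]
      exact count_form H hH hM hb hbM I (fun q hq => (hI q hq).1) N)
  rw [hfilter, one_mul] at hs
  have e2 : ((k + 1 : ℕ) : ℝ) + 1 = (k : ℝ) + 2 := by push_cast; ring
  rw [e2] at hs
  exact hs

end Pool.Agent.Helper4.AR
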