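import Pool.Agent.Helper96.CPAP.SieveK

/-!
# Sets of large primes
-/

set_option autoImplicit false

open Finset

namespace Pool.Agent.Helper4.AR

open Pool.Agent.Helper44 Pool.Agent.Helper96.CPAP

/-- `∑_A ∏_{p ∈ A} 1/p ≤ (∑_{w < p ≤ z} 1/p)^s / s!` (`es`, `es_le_pow_div_factorial` in
Helper44/Bonferroni or BrunHooley) and `sum_primesUpTo_bounds` for the primes in `(w, z]`. -/
theorem large_sum : ∃ C : ℝ, 0 < C ∧ ∀ w z : ℝ, 2 ≤ w → w ≤ z → ∀ (s : ℕ)
    (T : Finset (Finset ℕ)),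
    (∀ A ∈ T, A.card = s ∧ ∀ p ∈ A, p.Prime ∧ w < p ∧ (p : ℝ) ≤ z) →
    ∑ A ∈ T, ∏ p ∈ A, (1 / (p : ℝ)) ≤
      (Real.log (Real.log z / Real.log w) + C) ^ s / (s.factorial : ℝ) := by
  classical
  obtain ⟨C, hC, hM⟩ := sum_primesUpTo_bounds
  refine ⟨2 * C, by positivity, ?_⟩
  intro w z hw hwz s T hT
  have hz : 2 ≤ z := hw.trans hwz
  have hlw : 0 < Real.log w := Real.log_pos (by linarith)
  have hlz : 0 < Real.log z := Real.log_pos (by linarith)
  have hsub : primesUpTo w ⊆ primesUpTo z := by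
    intro q hq
    rw [mem_primesUpTo (by linarith)] at hq ⊢
    exact ⟨hq.1, hq.2.trans hwz⟩
  set B := primesUpTo z \ primesUpTo w with hB
  have hsum : ∑ q ∈ B, (1 : ℝ) / q ≤ Real.log (Real.log z / Real.log w) + 2 * C := by
    have h1 := abs_le.1 (hM z hz)
    have h2 := abs_le.1 (hM w hw)
    have h3 : ∑ q ∈ B, (1 : ℝ) / q + ∑ q ∈ primesUpTo w, (1 : ℝ) / q =
        ∑ q ∈ primesUpTo z, (1 : ℝ) / q := by
      rw [hB]
      exact Finset.sum_sdiff hsub
    rw [Real.log_div hlz.ne' hlw.ne']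
    linarith
  have h0 : 0 ≤ ∑ q ∈ B, (1 : ℝ) / q := Finset.sum_nonneg fun q _ => by positivity
  calc ∑ A ∈ T, ∏ p ∈ A, (1 / (p : ℝ))
      ≤ ∑ A ∈ B.powerset.filter (fun I => I.card = s), ∏ p ∈ A, (1 / (p : ℝ)) := by
        apply Finset.sum_le_sum_of_subset_of_nonneg
        · intro A hA
          obtain ⟨h1, h2⟩ := hT A hA
          rw [Finset.mem_filter, Finset.mem_powerset]
          refine ⟨fun p hp => ?_, h1⟩
          obtain ⟨h3, h4, h5⟩ := h2 p hp
          rw [hB, Finset.mem_sdiff, mem_primesUpTo (by linarith), mem_primesUpTo (by linarith)]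
          exact ⟨⟨h3, h5⟩, fun h => absurd h.2 (not_le.2 h4)⟩
        · intro A _ _
          exact Finset.prod_nonneg fun p _ => by positivity
    _ = es B s (fun p : ℕ => 1 / (p : ℝ)) := by
        rw [es_eq_sum_filter]
        simp only [one_mul]
    _ ≤ (∑ q ∈ B, (1 : ℝ) / q) ^ s / (s.factorial : ℝ) :=
        es_le_pow_div_factorial _ _ (fun i _ => by positivity) s
    _ ≤ (Real.log (Real.log z / Real.log w) + 2 * C) ^ s / (s.factorial : ℝ) := by
        apply div_le_div_of_nonneg_right _ (by positivity)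
        exact pow_le_pow_left₀ h0 hsum s

/-- The `s` smallest elements of `T`. -/
theorem exists_small_subset {y s : ℕ} (hy : 0 < y) (T : Finset ℕ) (hT : T ⊆ y.primeFactors)
    (hs : 2 * s ≤ T.card) : ∃ A ⊆ T, A.card = s ∧ (∏ p ∈ A, p) ^ 2 ≤ y := by
  classical
  have hne : (T.powersetCard s).Nonempty := by
    rw [Finset.powersetCard_nonempty]
    omega
  obtain ⟨A, hA, hmin⟩ := Finset.exists_min_image (T.powersetCard s) (fun A => ∏ p ∈ A, p) hne
  rw [Finset.mem_powersetCard] at hA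
  refine ⟨A, hA.1, hA.2, ?_⟩
  have hc : s ≤ (T \ A).card := by
    rw [Finset.card_sdiff_of_subset hA.1, hA.2]
    omega
  obtain ⟨A', hA', hcA'⟩ := Finset.exists_subset_card_eq hc
  have h1 : ∏ p ∈ A, p ≤ ∏ p ∈ A', p := by
    apply hmin A'
    rw [Finset.mem_powersetCard]
    exact ⟨hA'.trans Finset.sdiff_subset, hcA'⟩
  have hdis : Disjoint A A' :=
    (Finset.disjoint_sdiff.mono_right hA')
  have hsub : A ∪ A' ⊆ y.primeFactors :=
    Finset.union_subset (hA.1.trans hT) ((hA'.trans Finset.sdiff_subset).trans hT)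
  calc (∏ p ∈ A, p) ^ 2 = (∏ p ∈ A, p) * ∏ p ∈ A, p := by ring
    _ ≤ (∏ p ∈ A, p) * ∏ p ∈ A', p := Nat.mul_le_mul_left _ h1
    _ = ∏ p ∈ A ∪ A', p := (Finset.prod_union hdis).symm
    _ ≤ ∏ p ∈ y.primeFactors, p :=
        Finset.prod_le_prod_of_subset_of_one_le' hsub
          (fun p hp _ => (Nat.prime_of_mem_primeFactors hp).one_lt.le)
    _ ≤ y := Nat.le_of_dvd hy (Nat.prod_primeFactors_dvd y)

end Pool.Agent.Helper4.AR
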