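import Pool.Agent.Helper4.AR.Forms
import Pool.Agent.Helper4.AR.Prods
import Pool.Agent.Helper4.AR.Subsets
import Pool.Agent.Helper96.CPAP.Count

/-!
# Rough tuples with a member having many prime factors are rare
-/

set_option autoImplicit false

open Finset

namespace Pool.Agent.Helper4.AR

open Pool.Agent.Helper44 Pool.Agent.Helper96.CPAP

namespace Large

/-- union bound -/
theorem evCount_le_sum {β : Type*} (Ω : Finset ℕ) (P : ℕ → Prop) (I : Finset β)
    (E : β → ℕ → Prop) (h : ∀ n ∈ Ω, P n → ∃ i ∈ I, E i n) :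
    evCount Ω P ≤ ∑ i ∈ I, evCount Ω (E i) := by
  classical
  rw [evCount_eq Ω P]
  have h1 : ∀ i ∈ I, evCount Ω (E i) = ((Ω.filter (E i)).card : ℝ) := fun i _ => evCount_eq Ω (E i)
  rw [sum_congr rfl h1, ← Nat.cast_sum]
  have h2 : Ω.filter P ⊆ I.biUnion (fun i => Ω.filter (E i)) := by
    intro n hn
    rw [mem_filter] at hn
    obtain ⟨i, hi, hE⟩ := h n hn.1 hn.2
    exact mem_biUnion.2 ⟨i, hi, mem_filter.2 ⟨hn.1, hE⟩⟩
  exact_mod_cast (card_le_card h2).trans card_biUnion_le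

theorem evCount_mono {Ω : Finset ℕ} {P R : ℕ → Prop} (h : ∀ n ∈ Ω, P n → R n) :
    evCount Ω P ≤ evCount Ω R := by
  classical
  rw [evCount_eq, evCount_eq]
  have h2 : Ω.filter P ⊆ Ω.filter R := by
    intro n hn
    rw [mem_filter] at hn ⊢
    exact ⟨hn.1, h n hn.1 hn.2⟩
  exact_mod_cast card_le_card h2

theorem count_div_le {D M : ℕ} (hD : 0 < D) (hc : Nat.Coprime D M) (b N : ℕ) :
    evCount (range N) (fun n => D ∣ b + M * n) ≤ N / D + 1 := by
  have hper : ∀ n, (D ∣ b + M * (n + D)) ↔ (D ∣ b + M * n) := by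
    intro n
    have : b + M * (n + D) = (b + M * n) + M * D := by ring
    rw [this]
    exact Nat.dvd_add_iff_left (Dvd.intro_left M rfl) |>.symm
  have h1 := count_periodic_bound (p := fun n => D ∣ b + M * n) hD hper N
  have h2 : Nat.count (fun n => D ∣ b + M * n) D ≤ 1 := by
    rw [Nat.count_eq_card_filter_range, card_le_one]
    intro x hx y hy
    rw [mem_filter, mem_range] at hx hy
    have key : ∀ x y : ℕ, x ≤ y → y < D → D ∣ b + M * x → D ∣ b + M * y → x = y := by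
      intro x y hxy hyD h3 h4
      have h5 : D ∣ (b + M * y) - (b + M * x) := Nat.dvd_sub h4 h3
      have h6 : (b + M * y) - (b + M * x) = M * (y - x) := by
        rw [Nat.mul_sub]
        omega
      rw [h6] at h5
      have h7 : D ∣ y - x := hc.dvd_of_dvd_mul_left h5
      have h8 : y - x = 0 := Nat.eq_zero_of_dvd_of_lt h7 (by omega)
      omega
    rcases le_total x y with h | h
    · exact key x y h hy.1 hx.2 hy.2
    · exact (key y x h hx.1 hy.2 hx.2).symm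
  rw [Nat.count_eq_card_filter_range] at h1
  rw [evCount_eq]
  have hD0 : (0 : ℝ) < D := by exact_mod_cast hD
  have h3 : ((Nat.count (fun n => D ∣ b + M * n) D : ℕ) : ℝ) ≤ 1 := by exact_mod_cast h2
  have h4 := (abs_le.1 h1).2
  have h5 : (N : ℝ) * ((Nat.count (fun n => D ∣ b + M * n) D : ℕ) / D) ≤ N / D := by
    rw [← mul_div_assoc]
    apply div_le_div_of_nonneg_right _ hD0.le
    exact mul_le_of_le_one_right (Nat.cast_nonneg _) h3
  linarith

/-- `V` does not change when primes above `w` are excluded. -/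
theorem V_eq {k : ℕ} (H : Finset ℕ) {b : ℕ} {w : ℝ} (hw : 0 ≤ w)
    (hb : ∀ p : ℕ, p.Prime → p ∣ b → w < p) : V k H b w = V k H 1 w := by
  unfold V
  apply prod_congr _ (fun _ _ => rfl)
  ext q
  rw [mem_pU (fun q h => PB_prime h) hw, mem_pU (fun q h => PB_prime h) hw]
  unfold PB
  constructor
  · rintro ⟨⟨h1, h2, h3⟩, h4⟩
    refine ⟨⟨h1, h2, fun h => ?_⟩, h4⟩
    exact h1.one_lt.ne' (Nat.dvd_one.1 h)
  · rintro ⟨⟨h1, h2, _⟩, h4⟩
    refine ⟨⟨h1, h2, fun h => ?_⟩, h4⟩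
    have := hb q h1 h
    linarith

theorem prod_inj {S T : Finset ℕ} (hS : ∀ p ∈ S, p.Prime) (hT : ∀ p ∈ T, p.Prime)
    (h : ∏ p ∈ S, p = ∏ p ∈ T, p) : S = T := by
  rw [← Nat.primeFactors_prod hS, ← Nat.primeFactors_prod hT, h]

theorem sum_sq_le {w : ℝ} (hw : 2 ≤ w) (m : ℕ) :
    ∑ n ∈ (range (m + 1)).filter (fun n : ℕ => w < (n : ℝ)), 1 / ((n : ℝ) ^ 2) ≤ 2 / w := by
  obtain ⟨v, hv⟩ : ∃ v : ℕ, v = ⌊w⌋₊ := ⟨_, rfl⟩
  have hv1 : (v : ℝ) ≤ w := by rw [hv]; exact Nat.floor_le (by linarith)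
  have hv2 : w < v + 1 := by rw [hv]; exact Nat.lt_floor_add_one w
  have hv3 : (1 : ℝ) < v := by linarith
  have hmain : ∀ m : ℕ, v ≤ m → ∑ n ∈ Ioc v m, 1 / ((n : ℝ) ^ 2) ≤ 1 / (v : ℝ) - 1 / (m : ℝ) := by
    intro m hm
    induction m, hm using Nat.le_induction with
    | base => simp
    | succ m hm ih =>
      rw [← Finset.sum_Ioc_consecutive (fun n : ℕ => 1 / ((n : ℝ) ^ 2)) hm (Nat.le_succ m)]
      have h1 : Ioc m (m + 1) = {m + 1} := by
        ext x
        rw [mem_Ioc, mem_singleton]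
        omega
      rw [h1, sum_singleton]
      have hm0 : (1 : ℝ) < m := by
        have : (v : ℝ) ≤ m := by exact_mod_cast hm
        linarith
      have h2 : 1 / (((m + 1 : ℕ) : ℝ) ^ 2) ≤ 1 / m - 1 / ((m + 1 : ℕ) : ℝ) := by
        push_cast
        rw [div_sub_div _ _ (by positivity) (by positivity), div_le_div_iff₀ (by positivity)
          (by positivity)]
        nlinarith
      linarith
  have h3 : (range (m + 1)).filter (fun n : ℕ => w < (n : ℝ)) ⊆ Ioc v (max v m) := by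
    intro n hn
    rw [mem_filter, mem_range] at hn
    rw [mem_Ioc]
    constructor
    · have : (v : ℝ) < n := by linarith [hn.2]
      exact_mod_cast this
    · exact (Nat.lt_succ_iff.1 hn.1).trans (le_max_right _ _)
  refine (sum_le_sum_of_subset_of_nonneg h3 (fun _ _ _ => by positivity)).trans ?_
  refine (hmain _ (le_max_left _ _)).trans ?_
  have h4 : (0 : ℝ) ≤ 1 / ((max v m : ℕ) : ℝ) := by positivity
  have h5 : 1 / (v : ℝ) ≤ 2 / w := by
    rw [div_le_div_iff₀ (by linarith) (by linarith)]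
    linarith
  linarith

end Large

open Large

/-- Number of `n < N` such that the tuple is rough and some member has at least `2 s` distinct
prime factors `> w`.  For such an `n`, `h` and `A` (`exists_small_subset`) with `B = ∏ A`:
`B ≤ z`, `B ∣ a + M n + h`, `A` consists of primes `> w` (so `B` is coprime to `M`, whose prime
factors are `< 2 (k + 1) ≤ w`), and `Rough k M a H B w n`; `V k H B w = V k H 1 w` since the primes
of `B` are `> w`.  Sum the upper bound of `form_sieve` over the sets `A` with `∏ A ≤ z` (at most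
`z` of them, `∏` is injective on sets of primes), then `large_sum`. -/
theorem many_large : ∃ C : ℝ, 0 < C ∧ ∃ A : ℝ, 1 ≤ A ∧ ∀ (k M a : ℕ) (H : Finset ℕ),
    H.card ≤ k + 1 → (∀ q : ℕ, q.Prime → 2 * (k + 1) ≤ q → ¬ q ∣ M) →
    ∀ w z : ℝ, 2 ≤ w → 2 * ((k : ℝ) + 1) ≤ w → w ≤ z → ∀ N : ℕ,
    (∀ n < N, ∀ h ∈ H, 0 < a + M * n + h ∧ ((a + M * n + h : ℕ) : ℝ) ≤ z ^ 2) → ∀ s : ℕ,
    evCount (range N) (fun n => Rough k M a H 1 w n ∧
      ∃ h ∈ H, 2 * s ≤ ((a + M * n + h).primeFactors.filter (fun p : ℕ => w < (p : ℝ))).card) ≤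
    ((k : ℝ) + 1) * (2 * N * V k H 1 w *
      ((Real.log (Real.log z / Real.log w) + C) ^ s / (s.factorial : ℝ)) +
        z * w ^ (A * ((k : ℝ) + 2) ^ 2)) := by
  classical
  obtain ⟨C, hC, hlarge⟩ := large_sum
  obtain ⟨A, hA, hform⟩ := form_sieve
  refine ⟨C, hC, A, hA, ?_⟩
  intro k M a H hH hM w z hw2 hwk hwz N hz s
  have hw0 : (0 : ℝ) ≤ w := by linarith
  have hz0 : (0 : ℝ) ≤ z := by linarith
  -- the family of sets of primes
  obtain ⟨T, hT⟩ : ∃ T : Finset (Finset ℕ), T =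
      (((range (⌊z⌋₊ + 1)).filter (fun p : ℕ => p.Prime ∧ w < (p : ℝ))).powersetCard s).filter
        (fun S => ((∏ p ∈ S, p : ℕ) : ℝ) ≤ z) := ⟨_, rfl⟩
  have hTmem : ∀ S ∈ T, (S.card = s ∧ ∀ p ∈ S, p.Prime ∧ w < p ∧ (p : ℝ) ≤ z) ∧
      ((∏ p ∈ S, p : ℕ) : ℝ) ≤ z := by
    intro S hS
    rw [hT, mem_filter, mem_powersetCard] at hS
    refine ⟨⟨hS.1.2, fun p hp => ?_⟩, hS.2⟩
    have h1 := hS.1.1 hp
    rw [mem_filter, mem_range] at h1
    refine ⟨h1.2.1, h1.2.2, ?_⟩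
    exact (Nat.le_floor_iff hz0).1 (by omega)
  have hTcard : (T.card : ℝ) ≤ z := by
    have h1 : T.card ≤ (Icc 1 ⌊z⌋₊).card := by
      apply card_le_card_of_injOn (fun S => ∏ p ∈ S, p)
      · intro S hS
        have h2 := hTmem S hS
        simp only [coe_Icc, Set.mem_Icc]
        constructor
        · exact Nat.one_le_iff_ne_zero.2 (prod_ne_zero_iff.2 fun p hp => (h2.1.2 p hp).1.ne_zero)
        · exact Nat.le_floor h2.2
      · intro S hS S' hS' h
        exact prod_inj (fun p hp => ((hTmem S hS).1.2 p hp).1)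
          (fun p hp => ((hTmem S' hS').1.2 p hp).1) h
    rw [Nat.card_Icc, Nat.add_sub_cancel] at h1
    calc (T.card : ℝ) ≤ (⌊z⌋₊ : ℝ) := by exact_mod_cast h1
      _ ≤ z := Nat.floor_le hz0
  -- union bound
  have hunion := evCount_le_sum (range N) (fun n => Rough k M a H 1 w n ∧
      ∃ h ∈ H, 2 * s ≤ ((a + M * n + h).primeFactors.filter (fun p : ℕ => w < (p : ℝ))).card)
      (H ×ˢ T) (fun i n => (∏ p ∈ i.2, p) ∣ a + M * n + i.1 ∧
        Rough k M a H (∏ p ∈ i.2, p) w n) (by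
    rintro n hn ⟨hrough, h, hh, hcard⟩
    rw [mem_range] at hn
    obtain ⟨hy0, hyz⟩ := hz n hn h hh
    obtain ⟨S, hS, hSc, hSp⟩ := exists_small_subset hy0 _
      (filter_subset (fun p : ℕ => w < (p : ℝ)) (a + M * n + h).primeFactors) hcard
    have hSpr : ∀ p ∈ S, p.Prime ∧ w < (p : ℝ) := fun p hp => by
      have h1 := hS hp
      rw [mem_filter] at h1
      exact ⟨Nat.prime_of_mem_primeFactors h1.1, h1.2⟩
    have hprodz : ((∏ p ∈ S, p : ℕ) : ℝ) ≤ z := by
      have h1 : (((∏ p ∈ S, p : ℕ) : ℝ)) ^ 2 ≤ z ^ 2 := by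
        refine le_trans ?_ hyz
        exact_mod_cast hSp
      exact (pow_le_pow_iff_left₀ (Nat.cast_nonneg _) hz0 (by norm_num)).1 h1
    have hprod0 : 0 < ∏ p ∈ S, p := prod_pos fun p hp => (hSpr p hp).1.pos
    refine ⟨(h, S), mem_product.2 ⟨hh, ?_⟩, ?_, ?_⟩
    · rw [hT, mem_filter, mem_powersetCard]
      refine ⟨⟨fun p hp => ?_, hSc⟩, hprodz⟩
      rw [mem_filter, mem_range]
      refine ⟨?_, hSpr p hp⟩
      have h1 : p ≤ ∏ p ∈ S, p := Nat.le_of_dvd hprod0 (dvd_prod_of_mem _ hp)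
      have h2 : (∏ p ∈ S, p) ≤ ⌊z⌋₊ := Nat.le_floor hprodz
      omega
    · apply prod_primes_dvd
      · exact fun p hp => (hSpr p hp).1.prime
      · intro p hp
        have h1 := hS hp
        rw [mem_filter] at h1
        exact Nat.dvd_of_mem_primeFactors h1.1
    · intro q hq hqw
      exact hrough q ⟨hq.1, hq.2.1, fun h => hq.1.one_lt.ne' (Nat.dvd_one.1 h)⟩ hqw)
  refine hunion.trans ?_
  rw [sum_product]
  have hone : ∀ h ∈ H, ∑ S ∈ T, evCount (range N) (fun n => (∏ p ∈ S, p) ∣ a + M * n + h ∧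
        Rough k M a H (∏ p ∈ S, p) w n) ≤
      2 * N * V k H 1 w * ((Real.log (Real.log z / Real.log w) + C) ^ s / (s.factorial : ℝ)) +
        z * w ^ (A * ((k : ℝ) + 2) ^ 2) := by
    intro h _
    have hwp : 0 ≤ w ^ (A * ((k : ℝ) + 2) ^ 2) := Real.rpow_nonneg hw0 _
    have hV : 0 ≤ V k H 1 w := (V_pos hH 1 hw0).le
    have h1 : ∀ S ∈ T, evCount (range N) (fun n => (∏ p ∈ S, p) ∣ a + M * n + h ∧
        Rough k M a H (∏ p ∈ S, p) w n) ≤
        2 * N * V k H 1 w * (∏ p ∈ S, (1 / (p : ℝ))) + w ^ (A * ((k : ℝ) + 2) ^ 2) := by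
      intro S hS
      obtain ⟨⟨_, hSp⟩, _⟩ := hTmem S hS
      have hb0 : 0 < ∏ p ∈ S, p := prod_pos fun p hp => (hSp p hp).1.pos
      have hco : Nat.Coprime (∏ p ∈ S, p) M := by
        apply Nat.Coprime.prod_left
        intro p hp
        rw [Nat.Prime.coprime_iff_not_dvd (hSp p hp).1]
        apply hM p (hSp p hp).1
        have h2 : 2 * ((k : ℝ) + 1) ≤ p := hwk.trans (hSp p hp).2.1.le
        exact_mod_cast h2
      have h2 := (hform k M a H hH hM (∏ p ∈ S, p) h hb0 hco w hw2 N).1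
      have h3 : V k H (∏ p ∈ S, p) w = V k H 1 w := by
        apply V_eq H hw0
        intro p hp hd
        obtain ⟨q, hq, hd'⟩ := (Prime.dvd_finsetProd_iff hp.prime _).1 hd
        have : p = q := (Nat.prime_dvd_prime_iff_eq hp (hSp q hq).1).1 hd'
        rw [this]
        exact (hSp q hq).2.1
      rw [h3] at h2
      refine h2.trans (le_of_eq ?_)
      rw [prod_div_distrib, prod_const_one]
      push_cast
      ring
    refine (sum_le_sum h1).trans ?_
    rw [sum_add_distrib, ← mul_sum, sum_const, nsmul_eq_mul]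
    have h2 := hlarge w z hw2 hwz s T (fun S hS => (hTmem S hS).1)
    have h3 := mul_le_mul_of_nonneg_left h2 (show 0 ≤ 2 * N * V k H 1 w by positivity)
    have h4 := mul_le_mul_of_nonneg_right hTcard hwp
    linarith
  have hcst : 0 ≤ 2 * N * V k H 1 w *
      ((Real.log (Real.log z / Real.log w) + C) ^ s / (s.factorial : ℝ)) +
        z * w ^ (A * ((k : ℝ) + 2) ^ 2) := by
    have hV : 0 ≤ V k H 1 w := (V_pos hH 1 hw0).le
    have hlw : 0 < Real.log w := Real.log_pos (by linarith)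
    have h1 : 0 ≤ Real.log (Real.log z / Real.log w) := by
      apply Real.log_nonneg
      rw [le_div_iff₀ hlw, one_mul]
      exact Real.log_le_log (by linarith) hwz
    positivity
  refine (sum_le_sum hone).trans ?_
  rw [sum_const, nsmul_eq_mul]
  apply mul_le_mul_of_nonneg_right _ hcst
  exact_mod_cast hH

/-- Number of `n < N` such that some member is divisible by `p^2` for a prime `p > w`:
for `w < p ≤ z` there are at most `N/p^2 + 1` such `n` (`p ∤ M`), and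
`∑_{p > w} 1/p^2 ≤ ∑_{n > w} 1/n^2 ≤ 2/w`. -/
theorem square_large (k M a : ℕ) (H : Finset ℕ) (hH : H.card ≤ k + 1)
    (hM : ∀ q : ℕ, q.Prime → 2 * (k + 1) ≤ q → ¬ q ∣ M) (w z : ℝ) (hw2 : 2 ≤ w)
    (hwk : 2 * ((k : ℝ) + 1) ≤ w) (hwz : w ≤ z) (N : ℕ)
    (hz : ∀ n < N, ∀ h ∈ H, 0 < a + M * n + h ∧ ((a + M * n + h : ℕ) : ℝ) ≤ z ^ 2) :
    evCount (range N) (fun n => ∃ h ∈ H, ∃ p : ℕ, p.Prime ∧ w < (p : ℝ) ∧
      p ^ 2 ∣ a + M * n + h) ≤ ((k : ℝ) + 1) * (2 * N / w + z) := by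
  classical
  have hw0 : (0 : ℝ) ≤ w := by linarith
  have hz0 : (0 : ℝ) ≤ z := by linarith
  obtain ⟨S, hS⟩ : ∃ S : Finset ℕ, S =
      (range (⌊z⌋₊ + 1)).filter (fun p : ℕ => p.Prime ∧ w < (p : ℝ)) := ⟨_, rfl⟩
  have hSmem : ∀ p, p ∈ S ↔ p < ⌊z⌋₊ + 1 ∧ p.Prime ∧ w < (p : ℝ) := by
    intro p
    rw [hS, mem_filter, mem_range]
  have hunion := evCount_le_sum (range N) (fun n => ∃ h ∈ H, ∃ p : ℕ, p.Prime ∧ w < (p : ℝ) ∧
      p ^ 2 ∣ a + M * n + h) (H ×ˢ S) (fun i n => i.2 ^ 2 ∣ (a + i.1) + M * n) (by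
    rintro n hn ⟨h, hh, p, hp, hwp, hd⟩
    rw [mem_range] at hn
    obtain ⟨hy0, hyz⟩ := hz n hn h hh
    refine ⟨(h, p), mem_product.2 ⟨hh, ?_⟩, ?_⟩
    · rw [hSmem]
      refine ⟨?_, hp, hwp⟩
      have h1 : ((p : ℝ)) ^ 2 ≤ z ^ 2 := by
        refine le_trans ?_ hyz
        exact_mod_cast Nat.le_of_dvd hy0 hd
      have h2 : (p : ℝ) ≤ z := (pow_le_pow_iff_left₀ (Nat.cast_nonneg _) hz0 (by norm_num)).1 h1
      exact Nat.lt_succ_iff.2 (Nat.le_floor h2)
    · have h1 : a + h + M * n = a + M * n + h := by ring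
      show p ^ 2 ∣ a + h + M * n
      rw [h1]
      exact hd)
  refine hunion.trans ?_
  rw [sum_product]
  have hone : ∀ h ∈ H, ∑ p ∈ S, evCount (range N) (fun n => p ^ 2 ∣ (a + h) + M * n) ≤
      2 * N / w + z := by
    intro h _
    have h1 : ∀ p ∈ S, evCount (range N) (fun n => p ^ 2 ∣ (a + h) + M * n) ≤
        N * (1 / (p : ℝ) ^ 2) + 1 := by
      intro p hp
      rw [hSmem] at hp
      have hco : Nat.Coprime (p ^ 2) M := by
        apply Nat.Coprime.pow_left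
        rw [Nat.Prime.coprime_iff_not_dvd hp.2.1]
        apply hM p hp.2.1
        have h2 : 2 * ((k : ℝ) + 1) ≤ p := hwk.trans hp.2.2.le
        exact_mod_cast h2
      have h2 := count_div_le (pow_pos hp.2.1.pos 2) hco (a + h) N
      refine h2.trans (le_of_eq ?_)
      push_cast
      ring
    refine (sum_le_sum h1).trans ?_
    rw [sum_add_distrib, ← mul_sum, sum_const, nsmul_eq_mul, mul_one]
    have h2 : ∑ p ∈ S, 1 / (p : ℝ) ^ 2 ≤ 2 / w := by
      refine le_trans ?_ (sum_sq_le hw2 ⌊z⌋₊)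
      apply sum_le_sum_of_subset_of_nonneg _ (fun _ _ _ => by positivity)
      intro p hp
      rw [hSmem] at hp
      rw [mem_filter, mem_range]
      exact ⟨hp.1, hp.2.2⟩
    have h3 : (S.card : ℝ) ≤ z := by
      have h4 : S ⊆ Icc 1 ⌊z⌋₊ := by
        intro p hp
        rw [hSmem] at hp
        rw [mem_Icc]
        exact ⟨hp.2.1.one_lt.le, Nat.lt_succ_iff.1 hp.1⟩
      have h5 := card_le_card h4
      rw [Nat.card_Icc, Nat.add_sub_cancel] at h5
      calc (S.card : ℝ) ≤ (⌊z⌋₊ : ℝ) := by exact_mod_cast h5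
        _ ≤ z := Nat.floor_le hz0
    have h4 := mul_le_mul_of_nonneg_left h2 (Nat.cast_nonneg (α := ℝ) N)
    have h5 : (N : ℝ) * (2 / w) = 2 * N / w := by ring
    linarith
  refine (sum_le_sum hone).trans ?_
  rw [sum_const, nsmul_eq_mul]
  apply mul_le_mul_of_nonneg_right _ (by positivity)
  exact_mod_cast hH

end Pool.Agent.Helper4.AR
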