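import Pool.Agent.Helper4.AR.Large
import Pool.Agent.Helper4.AR.CountT
import Pool.Agent.Helper4.AR.Avg
import Pool.Agent.Helper4.AR.Prog

/-!
# Counting the starts of good tuples, uniformly in the difference
-/

set_option autoImplicit false

open Finset

namespace Pool.Agent.Helper4.AR

open Pool.Agent.Helper44 Pool.Agent.Helper96.CPAP
open ArithmeticFunction (cardFactors)

/-! ### Elementary estimates -/

theorem pow_div_factorial_le {L : ℝ} (hL : 0 ≤ L) {s : ℕ} (hs : 8 * L ≤ s) :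
    L ^ s / (s.factorial : ℝ) ≤ Real.exp (-(s : ℝ)) := by
  rcases Nat.eq_zero_or_pos s with h0 | h0
  · subst h0
    simp
  · have hs0 : (0 : ℝ) < s := by exact_mod_cast h0
    have h1 := Real.pow_div_factorial_le_exp (s : ℝ) hs0.le s
    have h2 : L / s ≤ Real.exp (-2) := by
      have h3 : Real.exp 2 ≤ 8 := by
        have h4 := Real.exp_one_lt_d9
        have h5 : Real.exp 2 = Real.exp 1 * Real.exp 1 := by rw [← Real.exp_add]; norm_num
        have h6 := Real.exp_pos 1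
        rw [h5]
        nlinarith
      rw [div_le_iff₀ hs0, Real.exp_neg]
      have h4 := Real.exp_pos 2
      rw [← div_eq_inv_mul, le_div_iff₀ h4]
      nlinarith
    have h3 : L ^ s / (s.factorial : ℝ) = (L / s) ^ s * ((s : ℝ) ^ s / (s.factorial : ℝ)) := by
      rw [div_pow]
      field_simp
    rw [h3]
    calc (L / s) ^ s * ((s : ℝ) ^ s / (s.factorial : ℝ))
        ≤ (Real.exp (-2)) ^ s * Real.exp s := by
          apply mul_le_mul _ h1 (by positivity) (by positivity)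
          exact pow_le_pow_left₀ (by positivity) h2 s
      _ = Real.exp (-(s : ℝ)) := by
          rw [← Real.exp_nat_mul, ← Real.exp_add]
          congr 1
          ring

theorem evCount_mono {α : Type*} {Ω : Finset α} {P Q : α → Prop}
    (h : ∀ ω ∈ Ω, P ω → Q ω) : evCount Ω P ≤ evCount Ω Q := by
  classical
  rw [evCount_eq, evCount_eq]
  have : (Ω.filter P).card ≤ (Ω.filter Q).card := by
    apply Finset.card_le_card
    intro ω hω
    rw [Finset.mem_filter] at hω ⊢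
    exact ⟨hω.1, h ω hω.1 hω.2⟩
  exact_mod_cast this

theorem evCount_cover {α : Type*} {Ω : Finset α} {P G B1 B2 : α → Prop} {T : Finset ℕ}
    {B3 : ℕ → α → Prop}
    (h : ∀ ω ∈ Ω, P ω → G ω ∨ B1 ω ∨ B2 ω ∨ ∃ t ∈ T, B3 t ω) :
    evCount Ω P ≤ evCount Ω G + evCount Ω B1 + evCount Ω B2 + ∑ t ∈ T, evCount Ω (B3 t) := by
  classical
  simp only [evCount_eq]
  have h1 : Ω.filter P ⊆ ((Ω.filter G ∪ Ω.filter B1) ∪ Ω.filter B2) ∪
      T.biUnion (fun t => Ω.filter (B3 t)) := by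
    intro ω hω
    rw [Finset.mem_filter] at hω
    simp only [Finset.mem_union, Finset.mem_filter, Finset.mem_biUnion]
    rcases h ω hω.1 hω.2 with h2 | h2 | h2 | ⟨t, ht, h2⟩
    · exact Or.inl (Or.inl (Or.inl ⟨hω.1, h2⟩))
    · exact Or.inl (Or.inl (Or.inr ⟨hω.1, h2⟩))
    · exact Or.inl (Or.inr ⟨hω.1, h2⟩)
    · exact Or.inr ⟨t, ht, hω.1, h2⟩
  have h2 := Finset.card_le_card h1
  have h3 := Finset.card_union_le ((Ω.filter G ∪ Ω.filter B1) ∪ Ω.filter B2)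
    (T.biUnion (fun t => Ω.filter (B3 t)))
  have h4 := Finset.card_union_le (Ω.filter G ∪ Ω.filter B1) (Ω.filter B2)
  have h5 := Finset.card_union_le (Ω.filter G) (Ω.filter B1)
  have h6 : (T.biUnion (fun t => Ω.filter (B3 t))).card ≤ ∑ t ∈ T, (Ω.filter (B3 t)).card :=
    Finset.card_biUnion_le
  have h7 : (Ω.filter P).card ≤ (Ω.filter G).card + (Ω.filter B1).card + (Ω.filter B2).card +
      ∑ t ∈ T, (Ω.filter (B3 t)).card := by omega
  exact_mod_cast h7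

/-- `(log N)^k` is smaller than any positive power of `N`. -/
theorem exists_log_pow_le (k : ℕ) (η ε : ℝ) (hη : 0 < η) (hε : 0 < ε) : ∃ N₀ : ℕ, ∀ N : ℕ,
    N₀ ≤ N → (Real.log N) ^ k ≤ ε * (N : ℝ) ^ η := by
  have h1 := (isLittleO_log_rpow_rpow_atTop (s := η) (k : ℝ) hη).bound hε
  rw [Filter.eventually_atTop] at h1
  obtain ⟨b, hb⟩ := h1
  refine ⟨max ⌈b⌉₊ 1, fun N hN => ?_⟩
  have h2 : b ≤ N := (Nat.le_ceil b).trans (by exact_mod_cast (le_max_left _ _).trans hN)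
  have h3 := hb N h2
  have h4 : 0 ≤ Real.log N := Real.log_natCast_nonneg N
  rw [Real.rpow_natCast, Real.norm_of_nonneg (pow_nonneg h4 k),
    Real.norm_of_nonneg (Real.rpow_nonneg (Nat.cast_nonneg N) _)] at h3
  exact h3

/-- A power of `N` exceeds any bound. -/
theorem exists_le_rpow (η B : ℝ) (hη : 0 < η) : ∃ N₀ : ℕ, ∀ N : ℕ, N₀ ≤ N → B ≤ (N : ℝ) ^ η := by
  have h1 := (tendsto_rpow_atTop hη).comp tendsto_natCast_atTop_atTop
  have h2 := h1.eventually_ge_atTop B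
  rw [Filter.eventually_atTop] at h2
  obtain ⟨N₀, h⟩ := h2
  exact ⟨N₀, fun N hN => h N hN⟩

theorem exists_le_loglog (B : ℝ) : ∃ N₀ : ℕ, ∀ N : ℕ, N₀ ≤ N → B ≤ Real.log (Real.log N) := by
  have h1 := (Real.tendsto_log_atTop.comp
    (Real.tendsto_log_atTop.comp tendsto_natCast_atTop_atTop)).eventually_ge_atTop B
  rw [Filter.eventually_atTop] at h1
  obtain ⟨N₀, h⟩ := h1
  exact ⟨N₀, fun N hN => h N hN⟩

/-! ### Good values of `n` -/

/-- The tuple at `n` is rough, every member has less than `2 s` distinct prime factors `> w` and is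
not divisible by `p^2` for `p > w`, and the intermediate numbers have more than `R` prime
factors. -/
def Good (k M a d R s : ℕ) (w : ℝ) (n : ℕ) : Prop :=
  Rough k M a (sh k d) 1 w n ∧
  (∀ h ∈ sh k d, ((a + M * n + h).primeFactors.filter (fun p : ℕ => w < (p : ℝ))).card < 2 * s) ∧
  (∀ h ∈ sh k d, ∀ p : ℕ, p.Prime → w < (p : ℝ) → ¬ p ^ 2 ∣ a + M * n + h) ∧
  (∀ t < (k - 1) * d, ¬ d ∣ t → R < cardFactors (a + M * n + t))

/-- The contribution of one intermediate shift. -/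
theorem term_bound {F K C3 C4 LN S V0 LL W : ℝ} {R : ℕ} {N : ℝ} (hN : 0 ≤ N)
    (h1 : F ≤ 2 ^ R * N * W * S ^ (R - 1) + K) (hS0 : 0 ≤ S) (hS : S ≤ 2 * LL)
    {g : ℝ} (hg : 0 ≤ g) (hLN : 0 < LN) (hC3 : 0 ≤ C3) (hC4 : 0 ≤ C4) (hV0 : 0 ≤ V0)
    (hW : W ≤ C3 / LN * g * (C4 * V0)) :
    F ≤ 2 ^ R * 2 ^ (R - 1) * (C3 * C4) * (N * V0) * (LL ^ (R - 1) / LN) * g + K := by
  have h2 : S ^ (R - 1) ≤ 2 ^ (R - 1) * LL ^ (R - 1) := by
    rw [← mul_pow]
    exact pow_le_pow_left₀ hS0 hS _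
  have h3 : 2 ^ R * N * W * S ^ (R - 1) ≤
      2 ^ R * N * (C3 / LN * g * (C4 * V0)) * (2 ^ (R - 1) * LL ^ (R - 1)) := by
    apply mul_le_mul _ h2 (pow_nonneg hS0 _)
    · positivity
    · exact mul_le_mul_of_nonneg_left hW (by positivity)
  have h4 : 2 ^ R * N * (C3 / LN * g * (C4 * V0)) * (2 ^ (R - 1) * LL ^ (R - 1)) =
      2 ^ R * 2 ^ (R - 1) * (C3 * C4) * (N * V0) * (LL ^ (R - 1) / LN) * g := by
    field_simp
  linarith

set_option maxHeartbeats 1000000 in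
theorem good_count : ∃ A C2 : ℝ, 1 ≤ A ∧ 0 < C2 ∧ ∀ k M R : ℕ, 1 ≤ k → 0 < M →
    (∀ q : ℕ, q.Prime → 2 * (k + 1) ≤ q → ¬ q ∣ M) → 1 ≤ R → ∀ s : ℕ,
    8 * (Real.log (8 * (A * ((k : ℝ) + 2) ^ 2)) + C2) + Real.log (32 * ((k : ℝ) + 1)) ≤ s →
    ∃ c : ℝ, 0 < c ∧ c ≤ 1 ∧ ∃ N₁ : ℕ, ∀ N : ℕ, N₁ ≤ N → ∀ x : ℕ, N ≤ x → x ≤ 4 * M * N →
    ∀ d : ℕ, 0 < d → (d : ℝ) ≤ c * Real.log x / (Real.log (Real.log x)) ^ (R - 1) →
    ∀ a : ℕ, 0 < a → a ≤ 3 * M →
    c * N / (Real.log N) ^ k ≤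
      evCount (range N) (Good k M a d R s ((N : ℝ) ^ (1 / (8 * (A * ((k : ℝ) + 2) ^ 2))))) := by
  obtain ⟨A1, hA1, hform⟩ := form_sieve
  obtain ⟨C2, hC2, A2, hA2, hmany⟩ := many_large
  obtain ⟨A3, hA3, hct⟩ := count_t
  refine ⟨A1 + A2 + A3, C2, by linarith, hC2, ?_⟩
  set A : ℝ := A1 + A2 + A3 with hA
  intro k M R hk hM hMq hR s hs
  obtain ⟨c1, hc1, hlow⟩ := V_low k
  obtain ⟨C3, hC3, hins⟩ := V_insert k
  have hRr : (1 : ℝ) ≤ R := by exact_mod_cast hR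
  obtain ⟨C4, hC4, hrat⟩ := V_ratio k R hRr
  obtain ⟨C5, hC5, hMer⟩ := sum_primesUpTo_bounds
  obtain ⟨C7, hC7, havg⟩ := avg_t k
  set κ : ℝ := A * ((k : ℝ) + 2) ^ 2 with hκ
  have hk0 : (1 : ℝ) ≤ k := by exact_mod_cast hk
  have hk2 : (1 : ℝ) ≤ ((k : ℝ) + 2) ^ 2 := one_le_pow₀ (by linarith)
  have hκ1 : 1 ≤ κ := one_le_mul_of_one_le_of_one_le (by linarith) hk2
  have hκA1 : A1 * ((k : ℝ) + 2) ^ 2 ≤ κ := by
    rw [hκ]; apply mul_le_mul_of_nonneg_right _ (by positivity); linarith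
  have hκA2 : A2 * ((k : ℝ) + 2) ^ 2 ≤ κ := by
    rw [hκ]; apply mul_le_mul_of_nonneg_right _ (by positivity); linarith
  have hκA3 : A3 * ((k : ℝ) + 2) ^ 2 ≤ κ := by
    rw [hκ]; apply mul_le_mul_of_nonneg_right _ (by positivity); linarith
  set η : ℝ := 1 / (8 * κ) with hη
  have hη0 : 0 < η := by positivity
  have hη8 : η ≤ 1 / 8 := by
    rw [hη]
    apply one_div_le_one_div_of_le (by norm_num)
    linarith
  have hηκ : η * κ = 1 / 8 := by
    rw [hη]; field_simp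
  set C8 : ℝ := 2 ^ R * 2 ^ (R - 1) * (8 * κ * R * C3 * C4) * C7 * 2 with hC8
  have hC8' : 0 < C8 := by positivity
  set c : ℝ := min 1 (min (1 / (16 * C8)) (c1 / 4)) with hc
  have hc0 : 0 < c := by
    rw [hc]
    apply lt_min one_pos (lt_min (by positivity) (by positivity))
  have hcle1 : c ≤ 1 := min_le_left _ _
  have hcle2 : c ≤ 1 / (16 * C8) := (min_le_right _ _).trans (min_le_left _ _)
  have hcle3 : c ≤ c1 / 4 := (min_le_right _ _).trans (min_le_right _ _)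
  obtain ⟨n1, hn1⟩ := exists_le_rpow (1 / 2) (8 * M) (by norm_num)
  obtain ⟨n2, hn2⟩ := exists_le_rpow (η / R) 2 (by positivity)
  obtain ⟨n3, hn3⟩ := exists_le_rpow η (2 * (k + 1)) hη0
  obtain ⟨n4, hn4⟩ := exists_log_pow_le k η (c1 / (8 * (4 * k + 8))) hη0 (by positivity)
  obtain ⟨n5, hn5⟩ := exists_le_loglog (1 + C5)
  obtain ⟨n6, hn6⟩ := exists_log_pow_le 1 (1 / 2) (1 / (2 * k)) (by norm_num) (by positivity)
  refine ⟨c, hc0, hcle1, max 1 (max (max n1 n2) (max (max n3 n4) (max n5 n6))), ?_⟩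
  intro N hN x hNx hx4 d hd hdx a ha ha3
  simp only [max_le_iff] at hN
  obtain ⟨hN1, ⟨hNn1, hNn2⟩, ⟨hNn3, hNn4⟩, hNn5, hNn6⟩ := hN
  have e1 := hn1 N hNn1
  have e2 := hn2 N hNn2
  have e3 := hn3 N hNn3
  have e4 := hn4 N hNn4
  have e5 := hn5 N hNn5
  have e6 := hn6 N hNn6
  have hNr1 : (1 : ℝ) ≤ N := by exact_mod_cast hN1
  have hNr0 : (0 : ℝ) < N := by linarith
  have hMr : (1 : ℝ) ≤ M := by exact_mod_cast hM
  -- logarithms
  have hhalf : (N : ℝ) ^ (1 / 2 : ℝ) * (N : ℝ) ^ (1 / 2 : ℝ) = N := by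
    rw [← Real.rpow_add hNr0]; norm_num
  have hsqN : (N : ℝ) ^ (1 / 2 : ℝ) ≤ N := by
    have h1 := Real.rpow_le_rpow_of_exponent_le hNr1 (show (1 / 2 : ℝ) ≤ 1 by norm_num)
    rwa [Real.rpow_one] at h1
  have hN8 : (8 : ℝ) * M ≤ N := e1.trans hsqN
  have hlogN1 : 1 < Real.log N := by
    have h1 : (0 : ℝ) < Real.log (Real.log N) := by linarith
    have h2 : 0 < Real.log N := by
      apply Real.log_pos
      linarith
    by_contra hcon
    push Not at hcon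
    have := Real.log_nonpos h2.le hcon
    linarith
  have hlogN0 : 0 < Real.log N := by linarith
  have hNxr : (N : ℝ) ≤ x := by exact_mod_cast hNx
  have hxr0 : (0 : ℝ) < x := by linarith
  have hlogNx : Real.log N ≤ Real.log x := Real.log_le_log hNr0 hNxr
  have hlogx2 : Real.log x ≤ 2 * Real.log N := by
    have h1 : (x : ℝ) ≤ (N : ℝ) ^ 2 := by
      have h2 : (x : ℝ) ≤ 4 * M * N := by exact_mod_cast hx4
      have h3 : 4 * (M : ℝ) * N ≤ N * N := mul_le_mul_of_nonneg_right (by linarith) hNr0.le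
      rw [sq]
      exact h2.trans h3
    calc Real.log x ≤ Real.log ((N : ℝ) ^ 2) := Real.log_le_log hxr0 h1
      _ = 2 * Real.log N := by rw [Real.log_pow]; norm_num
  have hLL1 : 1 + C5 ≤ Real.log (Real.log x) :=
    e5.trans (Real.log_le_log hlogN0 hlogNx)
  set LL : ℝ := Real.log (Real.log x) with hLL
  have hLLpos : 0 < LL := by linarith
  have hLLR : 1 ≤ LL ^ (R - 1) := one_le_pow₀ (by linarith)
  -- the size of `d`
  have hdLL : (d : ℝ) * LL ^ (R - 1) ≤ c * Real.log x := by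
    rwa [le_div_iff₀ (by positivity)] at hdx
  have hd1 : (d : ℝ) ≤ Real.log x := by
    have h1 : (d : ℝ) ≤ (d : ℝ) * LL ^ (R - 1) := le_mul_of_one_le_right (by positivity) hLLR
    have h2 : c * Real.log x ≤ 1 * Real.log x := mul_le_mul_of_nonneg_right hcle1 (by linarith)
    linarith
  have hkd : (k : ℝ) * d ≤ (N : ℝ) ^ (1 / 2 : ℝ) := by
    have h1 : Real.log N ≤ 1 / (2 * k) * (N : ℝ) ^ (1 / 2 : ℝ) := by
      simpa using e6
    have h2 : (k : ℝ) * d ≤ k * (2 * Real.log N) :=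
      mul_le_mul_of_nonneg_left (hd1.trans hlogx2) (by linarith)
    have h3 : (k : ℝ) * (2 * Real.log N) ≤ k * (2 * (1 / (2 * k) * (N : ℝ) ^ (1 / 2 : ℝ))) := by
      gcongr
    have h4 : (k : ℝ) * (2 * (1 / (2 * k) * (N : ℝ) ^ (1 / 2 : ℝ))) = (N : ℝ) ^ (1 / 2 : ℝ) := by
      field_simp
    linarith
  -- the levels
  set w : ℝ := (N : ℝ) ^ η with hw
  set w1 : ℝ := (N : ℝ) ^ (η / R) with hw1
  set z : ℝ := (N : ℝ) ^ (3 / 4 : ℝ) with hz
  have hwk : 2 * ((k : ℝ) + 1) ≤ w := e3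
  have hw2 : 2 ≤ w := by linarith
  have hw12 : 2 ≤ w1 := e2
  have hw0 : 0 < w := by linarith
  have hw10 : 0 < w1 := by linarith
  have hw1w : w1 ≤ w := by
    apply Real.rpow_le_rpow_of_exponent_le hNr1
    exact div_le_self hη0.le hRr
  have hwz : w ≤ z := Real.rpow_le_rpow_of_exponent_le hNr1 (by linarith)
  have hwκ : w ^ κ = (N : ℝ) ^ (1 / 8 : ℝ) := by
    rw [hw, ← Real.rpow_mul hNr0.le, hηκ]
  have hw1R : w1 ^ R = w := by
    rw [hw1, hw, ← Real.rpow_natCast, ← Real.rpow_mul hNr0.le]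
    congr 1
    field_simp
  have hw1R' : w1 ^ (R : ℝ) = w := by rw [Real.rpow_natCast]; exact hw1R
  have hlogw : Real.log w = η * Real.log N := by rw [hw, Real.log_rpow hNr0]
  have hlogw1 : Real.log w1 = η / R * Real.log N := by rw [hw1, Real.log_rpow hNr0]
  have hlogz : Real.log z = 3 / 4 * Real.log N := by rw [hz, Real.log_rpow hNr0]
  -- the tuple
  set H := sh k d with hH
  have hHk : H.card ≤ k := card_sh_le k d
  have hHk1 : H.card ≤ k + 1 := by omega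
  set V0 : ℝ := V k H 1 w with hV0
  have hV0pos : 0 < V0 := V_pos hHk1 1 hw0.le
  have hV0low : c1 / (Real.log N) ^ k ≤ V0 := by
    refine le_trans ?_ (hlow H hHk w hw2)
    have h1 : 0 < Real.log w := by rw [hlogw]; positivity
    apply div_le_div_of_nonneg_left hc1.le (pow_pos h1 k)
    apply pow_le_pow_left₀ h1.le
    rw [hlogw]
    exact mul_le_of_le_one_left hlogN0.le (by linarith)
  have hyz : ∀ n < N, ∀ h ∈ H, 0 < a + M * n + h ∧ ((a + M * n + h : ℕ) : ℝ) ≤ z ^ 2 := by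
    intro n hn h hh
    refine ⟨by omega, ?_⟩
    have h1 : z ^ 2 = N * (N : ℝ) ^ (1 / 2 : ℝ) := by
      rw [hz, ← Real.rpow_natCast, ← Real.rpow_mul hNr0.le]
      rw [show ((3 / 4 : ℝ) * ((2 : ℕ) : ℝ)) = 1 + 1 / 2 by push_cast; norm_num,
        Real.rpow_add hNr0, Real.rpow_one]
    rw [h1]
    obtain ⟨i, hi, rfl⟩ := mem_sh.mp hh
    have h2 : ((i * d : ℕ) : ℝ) ≤ N := by
      have h3 : ((i * d : ℕ) : ℝ) ≤ (k : ℝ) * d := by
        push_cast
        apply mul_le_mul_of_nonneg_right _ (by positivity)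
        exact_mod_cast hi.le
      linarith
    have h3 : (a : ℝ) ≤ 3 * M := by exact_mod_cast ha3
    have h4 : (n : ℝ) ≤ N := by exact_mod_cast hn.le
    have h5 : (M : ℝ) * n ≤ M * N := mul_le_mul_of_nonneg_left h4 (by linarith)
    have h6 : (M : ℝ) ≤ M * N := le_mul_of_one_le_right (by linarith) hNr1
    have h7 : (N : ℝ) ≤ M * N := le_mul_of_one_le_left (by linarith) hMr
    have h8 : (N : ℝ) * (8 * M) ≤ N * (N : ℝ) ^ (1 / 2 : ℝ) :=
      mul_le_mul_of_nonneg_left e1 hNr0.le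
    push_cast at h2 ⊢
    linarith
  -- the four counts
  have hG1 : 1 / 2 * N * V0 - (N : ℝ) ^ (1 / 8 : ℝ) ≤
      evCount (range N) (fun n => Rough k M a H 1 w n) := by
    have h1 := (hform k M a H hHk1 hMq 1 0 one_pos (Nat.coprime_one_left M) w hw2 N).2
    have h2 : w ^ (A1 * ((k : ℝ) + 2) ^ 2) ≤ (N : ℝ) ^ (1 / 8 : ℝ) := by
      rw [← hwκ]
      exact Real.rpow_le_rpow_of_exponent_le (by linarith) hκA1
    have h3 : evCount (range N) (fun n => 1 ∣ a + M * n + 0 ∧ Rough k M a H 1 w n) ≤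
        evCount (range N) (fun n => Rough k M a H 1 w n) := evCount_mono fun n _ h => h.2
    rw [Nat.cast_one, div_one] at h1
    linarith
  have hL : (Real.log (Real.log z / Real.log w) + C2) ^ s / (s.factorial : ℝ) ≤
      1 / (32 * ((k : ℝ) + 1)) := by
    have h1 : Real.log z / Real.log w = 6 * κ := by
      rw [hlogz, hlogw, hη]
      field_simp
      norm_num
    have h2 : Real.log (Real.log z / Real.log w) ≤ Real.log (8 * κ) := by
      rw [h1]
      exact Real.log_le_log (by positivity) (by linarith)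
    have h3 : 0 ≤ Real.log (Real.log z / Real.log w) := by
      rw [h1]
      apply Real.log_nonneg
      linarith
    have h4 : 0 ≤ Real.log (32 * ((k : ℝ) + 1)) := Real.log_nonneg (by linarith)
    have h5 := pow_div_factorial_le (L := Real.log (Real.log z / Real.log w) + C2) (s := s)
      (by linarith) (by linarith)
    refine h5.trans ?_
    have h6 : 0 ≤ Real.log (8 * κ) + C2 := by linarith
    have h7 : Real.exp (-(s : ℝ)) ≤ Real.exp (-Real.log (32 * ((k : ℝ) + 1))) := by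
      apply Real.exp_le_exp.mpr
      linarith
    refine h7.trans (le_of_eq ?_)
    rw [Real.exp_neg, Real.exp_log (by positivity), one_div]
  have hB1 : evCount (range N) (fun n => Rough k M a H 1 w n ∧
      ∃ h ∈ H, 2 * s ≤ ((a + M * n + h).primeFactors.filter (fun p : ℕ => w < (p : ℝ))).card) ≤
      N * V0 / 16 + (k + 1) * (N : ℝ) ^ (7 / 8 : ℝ) := by
    refine (hmany k M a H hHk1 hMq w z hw2 hwk hwz N hyz s).trans ?_
    have h2 : w ^ (A2 * ((k : ℝ) + 2) ^ 2) ≤ (N : ℝ) ^ (1 / 8 : ℝ) := by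
      rw [← hwκ]
      exact Real.rpow_le_rpow_of_exponent_le (by linarith) hκA2
    have h3 : z * w ^ (A2 * ((k : ℝ) + 2) ^ 2) ≤ (N : ℝ) ^ (7 / 8 : ℝ) := by
      calc z * w ^ (A2 * ((k : ℝ) + 2) ^ 2) ≤ z * (N : ℝ) ^ (1 / 8 : ℝ) := by gcongr
        _ = (N : ℝ) ^ (7 / 8 : ℝ) := by
          rw [hz, ← Real.rpow_add hNr0]; norm_num
    have h4 : 2 * N * V0 * ((Real.log (Real.log z / Real.log w) + C2) ^ s / (s.factorial : ℝ)) ≤
        2 * N * V0 * (1 / (32 * ((k : ℝ) + 1))) := mul_le_mul_of_nonneg_left hL (by positivity)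
    calc ((k : ℝ) + 1) * (2 * N * V k H 1 w *
          ((Real.log (Real.log z / Real.log w) + C2) ^ s / (s.factorial : ℝ)) +
            z * w ^ (A2 * ((k : ℝ) + 2) ^ 2))
        ≤ ((k : ℝ) + 1) * (2 * N * V0 * (1 / (32 * ((k : ℝ) + 1))) + (N : ℝ) ^ (7 / 8 : ℝ)) := by
          apply mul_le_mul_of_nonneg_left _ (by positivity)
          exact add_le_add h4 h3
      _ = N * V0 / 16 + (k + 1) * (N : ℝ) ^ (7 / 8 : ℝ) := by
          field_simp
          ring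
  have hB2 := square_large k M a H hHk1 hMq w z hw2 hwk hwz N hyz
  set T := (range ((k - 1) * d)).filter (fun t => ¬ d ∣ t) with hT
  have hS1 : 1 + ∑ p ∈ primesUpTo w1, 1 / (p : ℝ) ≤ 2 * LL := by
    have h1 := (abs_le.mp (hMer w1 hw12)).2
    have h2 : Real.log (Real.log w1) ≤ LL := by
      apply Real.log_le_log (Real.log_pos (by linarith))
      rw [hlogw1]
      have h3 : η / R ≤ 1 := by
        rw [div_le_one (by linarith)]
        linarith
      exact (mul_le_of_le_one_left hlogN0.le h3).trans hlogNx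
    linarith
  have hS0 : 0 ≤ 1 + ∑ p ∈ primesUpTo w1, 1 / (p : ℝ) := by positivity
  have hB3 : ∀ t ∈ T, evCount (range N) (fun n => Rough k M a H 1 w n ∧
      cardFactors (a + M * n + t) ≤ R) ≤
      2 ^ R * 2 ^ (R - 1) * (8 * κ * R * C3 * C4) * (N * V0) * (LL ^ (R - 1) / Real.log N) *
        sing 2 (∏ h ∈ H, ((t - h) + (h - t))) + 3 * (N : ℝ) ^ (1 / 4 : ℝ) := by
    intro t ht
    rw [hT, Finset.mem_filter, Finset.mem_range] at ht
    have htH : t ∉ H := by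
      intro h
      obtain ⟨i, _, rfl⟩ := mem_sh.mp h
      exact ht.2 (Dvd.intro_left i rfl)
    have h1 := hct k M a H hHk hM hMq ha t R hR w1 hw12 N
    have h2 : evCount (range N) (fun n => Rough k M a H 1 w n ∧
        cardFactors (a + M * n + t) ≤ R) ≤
        evCount (range N) (fun n => Rough k M a H 1 w1 n ∧
        cardFactors (a + M * n + t) ≤ R) := by
      apply evCount_mono
      rintro n _ ⟨h3, h4⟩
      exact ⟨fun q hq hqw => h3 q hq (hqw.trans hw1w), h4⟩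
    have h3 := hins H hHk t htH w1 hw12
    have h4 := hrat H hHk1 w1 hw12
    rw [hw1R'] at h4
    have h5 : (w1 ^ R * w1 ^ (A3 * ((k : ℝ) + 2) ^ 2) + (w1 ^ R + 1)) ≤
        3 * (N : ℝ) ^ (1 / 4 : ℝ) := by
      rw [hw1R]
      have h6 : w ≤ (N : ℝ) ^ (1 / 8 : ℝ) := Real.rpow_le_rpow_of_exponent_le hNr1 hη8
      have h7 : w1 ^ (A3 * ((k : ℝ) + 2) ^ 2) ≤ (N : ℝ) ^ (1 / 8 : ℝ) := by
        rw [← hwκ]
        calc w1 ^ (A3 * ((k : ℝ) + 2) ^ 2) ≤ w ^ (A3 * ((k : ℝ) + 2) ^ 2) :=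
              Real.rpow_le_rpow hw10.le hw1w (by positivity)
          _ ≤ w ^ κ := Real.rpow_le_rpow_of_exponent_le (by linarith) hκA3
      have h8 : (N : ℝ) ^ (1 / 8 : ℝ) * (N : ℝ) ^ (1 / 8 : ℝ) = (N : ℝ) ^ (1 / 4 : ℝ) := by
        rw [← Real.rpow_add hNr0]; norm_num
      have h9 : (N : ℝ) ^ (1 / 8 : ℝ) ≤ (N : ℝ) ^ (1 / 4 : ℝ) :=
        Real.rpow_le_rpow_of_exponent_le hNr1 (by norm_num)
      have h10 : (1 : ℝ) ≤ (N : ℝ) ^ (1 / 4 : ℝ) := Real.one_le_rpow hNr1 (by norm_num)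
      have h11 : w * w1 ^ (A3 * ((k : ℝ) + 2) ^ 2) ≤
          (N : ℝ) ^ (1 / 8 : ℝ) * (N : ℝ) ^ (1 / 8 : ℝ) :=
        mul_le_mul h6 h7 (by positivity) (by positivity)
      linarith
    have hg0 : 0 ≤ sing 2 (∏ h ∈ H, ((t - h) + (h - t))) :=
      zero_le_one.trans (one_le_sing _ _)
    have hW : V k (insert t H) 1 w1 ≤ (8 * κ * R * C3) / Real.log N *
        sing 2 (∏ h ∈ H, ((t - h) + (h - t))) * (C4 * V0) := by
      refine h3.trans ?_
      have h13 : C3 / Real.log w1 = (8 * κ * R * C3) / Real.log N := by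
        rw [hlogw1, hη]
        field_simp
      rw [h13]
      apply mul_le_mul_of_nonneg_left h4
      positivity
    have h14 := term_bound (R := R) (N := (N : ℝ)) hNr0.le (h2.trans h1) hS0 hS1 hg0 hlogN0
      (by positivity) hC4.le hV0pos.le hW
    have h15 : 2 ^ R * 2 ^ (R - 1) * (8 * κ * R * C3 * C4) = 2 ^ R * 2 ^ (R - 1) *
        ((8 * κ * R * C3) * C4) := by ring
    rw [h15]
    exact h14.trans (add_le_add le_rfl h5)
  have hTcard : (T.card : ℝ) ≤ (N : ℝ) ^ (1 / 2 : ℝ) := by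
    have h1 : T.card ≤ k * d := by
      refine (Finset.card_filter_le _ _).trans ?_
      rw [Finset.card_range]
      exact Nat.mul_le_mul_right d (by omega)
    have h2 : (T.card : ℝ) ≤ (k : ℝ) * d := by exact_mod_cast h1
    linarith
  have hB3sum : ∑ t ∈ T, evCount (range N) (fun n => Rough k M a H 1 w n ∧
      cardFactors (a + M * n + t) ≤ R) ≤ N * V0 / 16 + 3 * (N : ℝ) ^ (3 / 4 : ℝ) := by
    refine (Finset.sum_le_sum hB3).trans ?_
    rw [Finset.sum_add_distrib, ← Finset.mul_sum, Finset.sum_const, nsmul_eq_mul]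
    have h1 := havg d hd
    have h2 : (T.card : ℝ) * (3 * (N : ℝ) ^ (1 / 4 : ℝ)) ≤ 3 * (N : ℝ) ^ (3 / 4 : ℝ) := by
      have h3 : (N : ℝ) ^ (1 / 2 : ℝ) * (N : ℝ) ^ (1 / 4 : ℝ) = (N : ℝ) ^ (3 / 4 : ℝ) := by
        rw [← Real.rpow_add hNr0]; norm_num
      have h4 : (T.card : ℝ) * (3 * (N : ℝ) ^ (1 / 4 : ℝ)) ≤
          (N : ℝ) ^ (1 / 2 : ℝ) * (3 * (N : ℝ) ^ (1 / 4 : ℝ)) :=
        mul_le_mul_of_nonneg_right hTcard (by positivity)
      linarith
    have h5 : 2 ^ R * 2 ^ (R - 1) * (8 * κ * R * C3 * C4) * (N * V0) *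
        (LL ^ (R - 1) / Real.log N) * ∑ t ∈ T, sing 2 (∏ h ∈ H, ((t - h) + (h - t))) ≤
        N * V0 / 16 := by
      have h6 : 2 ^ R * 2 ^ (R - 1) * (8 * κ * R * C3 * C4) * (N * V0) *
          (LL ^ (R - 1) / Real.log N) * ∑ t ∈ T, sing 2 (∏ h ∈ H, ((t - h) + (h - t))) ≤
          2 ^ R * 2 ^ (R - 1) * (8 * κ * R * C3 * C4) * (N * V0) *
          (LL ^ (R - 1) / Real.log N) * (C7 * d) :=
        mul_le_mul_of_nonneg_left h1 (by positivity)
      have h7 : (d : ℝ) * LL ^ (R - 1) / Real.log N ≤ 2 * c := by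
        rw [div_le_iff₀ hlogN0]
        have h8 : c * Real.log x ≤ c * (2 * Real.log N) := mul_le_mul_of_nonneg_left hlogx2 hc0.le
        linarith
      have h8 : 2 ^ R * 2 ^ (R - 1) * (8 * κ * R * C3 * C4) * (N * V0) *
          (LL ^ (R - 1) / Real.log N) * (C7 * d) =
          2 ^ R * 2 ^ (R - 1) * (8 * κ * R * C3 * C4) * C7 * (N * V0) *
          ((d : ℝ) * LL ^ (R - 1) / Real.log N) := by
        field_simp
      have h9 : 2 ^ R * 2 ^ (R - 1) * (8 * κ * R * C3 * C4) * C7 * (N * V0) *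
          ((d : ℝ) * LL ^ (R - 1) / Real.log N) ≤
          2 ^ R * 2 ^ (R - 1) * (8 * κ * R * C3 * C4) * C7 * (N * V0) * (2 * c) :=
        mul_le_mul_of_nonneg_left h7 (by positivity)
      have h10 : 2 ^ R * 2 ^ (R - 1) * (8 * κ * R * C3 * C4) * C7 * (N * V0) * (2 * c) =
          (C8 * c) * (N * V0) := by rw [hC8]; ring
      have h11 : C8 * c ≤ 1 / 16 := by
        calc C8 * c ≤ C8 * (1 / (16 * C8)) := mul_le_mul_of_nonneg_left hcle2 hC8'.le
          _ = 1 / 16 := by field_simp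
      have h12 : (C8 * c) * (N * V0) ≤ 1 / 16 * (N * V0) :=
        mul_le_mul_of_nonneg_right h11 (by positivity)
      linarith
    linarith
  -- combine
  have hcover := evCount_cover (Ω := range N) (P := fun n => Rough k M a H 1 w n)
    (G := Good k M a d R s w)
    (B1 := fun n => Rough k M a H 1 w n ∧
      ∃ h ∈ H, 2 * s ≤ ((a + M * n + h).primeFactors.filter (fun p : ℕ => w < (p : ℝ))).card)
    (B2 := fun n => ∃ h ∈ H, ∃ p : ℕ, p.Prime ∧ w < (p : ℝ) ∧ p ^ 2 ∣ a + M * n + h)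
    (T := T) (B3 := fun t n => Rough k M a H 1 w n ∧ cardFactors (a + M * n + t) ≤ R) (by
      intro n _ hP
      by_cases h1 : ∃ h ∈ H, 2 * s ≤
          ((a + M * n + h).primeFactors.filter (fun p : ℕ => w < (p : ℝ))).card
      · exact Or.inr (Or.inl ⟨hP, h1⟩)
      by_cases h2 : ∃ h ∈ H, ∃ p : ℕ, p.Prime ∧ w < (p : ℝ) ∧ p ^ 2 ∣ a + M * n + h
      · exact Or.inr (Or.inr (Or.inl h2))
      by_cases h3 : ∃ t ∈ T, cardFactors (a + M * n + t) ≤ R
      · obtain ⟨t, ht, h4⟩ := h3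
        exact Or.inr (Or.inr (Or.inr ⟨t, ht, hP, h4⟩))
      left
      refine ⟨hP, ?_, ?_, ?_⟩
      · intro h hh
        by_contra hcon
        exact h1 ⟨h, hh, not_lt.mp hcon⟩
      · intro h hh p hp hpw hdv
        exact h2 ⟨h, hh, p, hp, hpw, hdv⟩
      · intro t ht hdt
        by_contra hcon
        exact h3 ⟨t, by rw [hT, Finset.mem_filter, Finset.mem_range]; exact ⟨ht, hdt⟩,
          not_lt.mp hcon⟩)
  -- the errors
  have hNV : c1 * N / (Real.log N) ^ k ≤ N * V0 := by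
    have h1 := mul_le_mul_of_nonneg_left hV0low hNr0.le
    calc c1 * N / (Real.log N) ^ k = N * (c1 / (Real.log N) ^ k) := by ring
      _ ≤ N * V0 := h1
  have hpw : ∀ e : ℝ, e ≤ 7 / 8 → (N : ℝ) ^ e ≤ (N : ℝ) ^ (1 - η) := by
    intro e he
    exact Real.rpow_le_rpow_of_exponent_le hNr1 (by linarith)
  have hNw : (N : ℝ) / w = (N : ℝ) ^ (1 - η) := by
    rw [Real.rpow_sub hNr0, Real.rpow_one]
  have herr : (4 * (k : ℝ) + 8) * (N : ℝ) ^ (1 - η) ≤ N * V0 / 8 := by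
    have h1 : (N : ℝ) ^ (1 - η) * (N : ℝ) ^ η = N := by
      rw [← Real.rpow_add hNr0]; simp
    have h2 : (N : ℝ) ^ (1 - η) * (Real.log N) ^ k ≤ (c1 / (8 * (4 * k + 8))) * N := by
      calc (N : ℝ) ^ (1 - η) * (Real.log N) ^ k
          ≤ (N : ℝ) ^ (1 - η) * (c1 / (8 * (4 * k + 8)) * (N : ℝ) ^ η) := by
            apply mul_le_mul_of_nonneg_left e4 (by positivity)
        _ = (c1 / (8 * (4 * k + 8))) * ((N : ℝ) ^ (1 - η) * (N : ℝ) ^ η) := by ring
        _ = _ := by rw [h1]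
    have h3 : (N : ℝ) ^ (1 - η) ≤ (c1 / (8 * (4 * k + 8))) * N / (Real.log N) ^ k := by
      rw [le_div_iff₀ (by positivity)]
      exact h2
    calc (4 * (k : ℝ) + 8) * (N : ℝ) ^ (1 - η)
        ≤ (4 * (k : ℝ) + 8) * ((c1 / (8 * (4 * k + 8))) * N / (Real.log N) ^ k) :=
          mul_le_mul_of_nonneg_left h3 (by positivity)
      _ = (c1 * N / (Real.log N) ^ k) / 8 := by
          field_simp
      _ ≤ N * V0 / 8 := by linarith
  have hfin : N * V0 / 4 ≤ evCount (range N) (Good k M a d R s w) := by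
    have h1 := hpw (1 / 8) (by norm_num)
    have h2 := hpw (7 / 8) le_rfl
    have h3 := hpw (3 / 4) (by norm_num)
    have h4 : 0 ≤ (N : ℝ) ^ (1 - η) := by positivity
    have h5 : ((k : ℝ) + 1) * (2 * N / w + z) ≤ ((k : ℝ) + 1) * (3 * (N : ℝ) ^ (1 - η)) := by
      apply mul_le_mul_of_nonneg_left _ (by positivity)
      have h6 : 2 * N / w = 2 * (N : ℝ) ^ (1 - η) := by rw [mul_div_assoc, hNw]
      rw [h6]
      linarith
    have h6 : ((k : ℝ) + 1) * (N : ℝ) ^ (7 / 8 : ℝ) ≤ ((k : ℝ) + 1) * (N : ℝ) ^ (1 - η) :=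
      mul_le_mul_of_nonneg_left h2 (by positivity)
    have h7 : (4 * (k : ℝ) + 8) * (N : ℝ) ^ (1 - η) = (N : ℝ) ^ (1 - η) +
        ((k : ℝ) + 1) * (N : ℝ) ^ (1 - η) + ((k : ℝ) + 1) * (3 * (N : ℝ) ^ (1 - η)) +
        3 * (N : ℝ) ^ (1 - η) := by ring
    have h8 : 1 / 2 * N * V0 = N * V0 / 4 + N * V0 / 8 + N * V0 / 16 + N * V0 / 16 := by ring
    linarith
  calc c * N / (Real.log N) ^ k ≤ (c1 / 4) * N / (Real.log N) ^ k := by
        gcongr
    _ = (c1 * N / (Real.log N) ^ k) / 4 := by ring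
    _ ≤ N * V0 / 4 := by linarith
    _ ≤ _ := hfin

end Pool.Agent.Helper4.AR
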